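import Mathlib
import Pool.Agent.Helper540.Osgood

/-!
Sequences of injective entire maps with a common range, converging on the unit ball.
-/

set_option autoImplicit false

open Metric Set Filter Topology Module
open scoped NNReal

namespace Pool.Agent.W2helper19

variable {E : Type} [NormedAddCommGroup E] [NormedSpace ℂ E] [FiniteDimensional ℂ E]

/-- The derivative of an injective holomorphic map, as an isomorphism, is a strict derivative. -/
theorem strict_of_inj {U : Set E} (hU : IsOpen U) {f : E → E} (hf : DifferentiableOn ℂ f U)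
    (hinj : InjOn f U) {z : E} (hz : z ∈ U) :
    ∃ T : E ≃L[ℂ] E, HasStrictFDerivAt f (T : E →L[ℂ] E) z := by
  have hcE : CompleteSpace E := FiniteDimensional.complete ℂ E
  have hinjd := Pool.Agent.Helper540.osgood (finrank ℂ E) E E rfl rfl U hU f hf hinj z hz
  let T : E ≃ₗ[ℂ] E := LinearEquiv.ofInjectiveOfFinrankEq (fderiv ℂ f z : E →ₗ[ℂ] E) hinjd rfl
  have hT : (T.toContinuousLinearEquiv : E →L[ℂ] E) = fderiv ℂ f z := by
    ext y
    rfl
  refine ⟨T.toContinuousLinearEquiv, ?_⟩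
  rw [hT]
  have h1 : ContDiffAt ℂ (1 : ℕ) f z :=
    (Pool.Agent.Helper540.contDiffOn_of_differentiableOn hU hf 1).contDiffAt (hU.mem_nhds hz)
  exact h1.hasStrictFDerivAt (by simp)

theorem image_isOpen {U : Set E} (hU : IsOpen U) {f : E → E} (hf : DifferentiableOn ℂ f U)
    (hinj : InjOn f U) : IsOpen (f '' U) := by
  have hcE : CompleteSpace E := FiniteDimensional.complete ℂ E
  rw [isOpen_iff_mem_nhds]
  rintro _ ⟨z, hz, rfl⟩
  obtain ⟨T, hT⟩ := strict_of_inj hU hf hinj hz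
  rw [← hT.map_nhds_eq_of_equiv]
  exact image_mem_map (hU.mem_nhds hz)

theorem inverse_diff {U : Set E} (hU : IsOpen U) {f : E → E} (hf : DifferentiableOn ℂ f U)
    (hinj : InjOn f U) {v : E → E} (hv : ∀ y ∈ f '' U, v y ∈ U) (hvf : ∀ y ∈ f '' U, f (v y) = y) :
    DifferentiableOn ℂ v (f '' U) :=
  Pool.Agent.Helper540.differentiableOn_of_comp (g := id) rfl hU (image_isOpen hU hf hinj) hf hinj
    differentiableOn_id hv hvf

/-- A Hurwitz type lemma. -/
theorem local_surj [Nontrivial E] {U : Set E} (hU : IsOpen U) {f : E → E}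
    (hf : DifferentiableOn ℂ f U) (hinj : InjOn f U) {z0 : E} (hz : z0 ∈ U) {Ψ : ℕ → E → E}
    (hΨ : ∀ k, DifferentiableOn ℂ (Ψ k) U) (hlim : TendstoLocallyUniformlyOn Ψ f atTop U)
    {ε : ℝ} (hε : 0 < ε) :
    ∃ δ > 0, ∀ᶠ k in atTop, ∀ z ∈ ball z0 δ, ∃ x ∈ closedBall z0 ε, Ψ k x = f z := by
  have hcE : CompleteSpace E := FiniteDimensional.complete ℂ E
  have hpE : ProperSpace E := FiniteDimensional.proper ℂ E
  obtain ⟨T, hT⟩ := strict_of_inj hU hf hinj hz
  set N : ℝ≥0 := ‖(T.symm : E →L[ℂ] E)‖₊ with hN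
  have hN0 : 0 < N := T.nnnorm_symm_pos
  set c : ℝ≥0 := N⁻¹ / 4 with hc
  have hc0 : 0 < c := by positivity
  obtain ⟨s, hs, hap⟩ := hT.approximates_deriv_on_nhds (c := c) (Or.inr hc0)
  obtain ⟨R, hR, hRs⟩ := Metric.nhds_basis_closedBall.mem_iff.1 (inter_mem hs (hU.mem_nhds hz))
  have hRs1 : closedBall z0 R ⊆ s := fun x hx => (hRs hx).1
  have hRU : closedBall z0 R ⊆ U := fun x hx => (hRs hx).2
  -- uniform closeness
  have hunif := (tendstoLocallyUniformlyOn_iff_forall_isCompact hU).1 hlim _ hRU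
    (isCompact_closedBall z0 R)
  rw [Metric.tendstoUniformlyOn_iff] at hunif
  set ε' : ℝ := min ε (R / 8) with hε'
  have hε'0 : 0 < ε' := lt_min hε (by positivity)
  have hε'R : ε' ≤ R / 8 := min_le_right _ _
  have hc0' : (0 : ℝ) < c := by exact_mod_cast hc0
  set η : ℝ := min (c * R / 4) (c * ε') with hη
  have hη0 : 0 < η := lt_min (by positivity) (by positivity)
  have hcont : ContinuousAt f z0 := (hf.differentiableAt (hU.mem_nhds hz)).continuousAt
  obtain ⟨δ, hδ, hδf⟩ := Metric.continuousAt_iff.1 hcont (c * ε') (by positivity)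
  refine ⟨δ, hδ, ?_⟩
  filter_upwards [hunif η hη0] with k hk z hzδ
  have hdiff : DifferentiableOn ℂ (fun x => Ψ k x - f x) (ball z0 R) :=
    ((hΨ k).sub hf).mono (ball_subset_closedBall.trans hRU)
  have hbd : ∀ x ∈ ball z0 R, ‖Ψ k x - f x‖ ≤ η := fun x hx => by
    have := hk x (ball_subset_closedBall hx)
    rw [dist_comm, dist_eq_norm] at this
    exact this.le
  have hcc : (c : ℝ) + (c : ℝ) = ((c + c : ℝ≥0) : ℝ) := by push_cast; ring
  have hap' : ApproximatesLinearOn (Ψ k) (T : E →L[ℂ] E) (closedBall z0 ε') (c + c) := by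
    intro x hx y hy
    rw [mem_closedBall] at hx hy
    have h1 : ‖f x - f y - (T : E →L[ℂ] E) (x - y)‖ ≤ c * ‖x - y‖ :=
      hap x (hRs1 (mem_closedBall.2 (by linarith))) y (hRs1 (mem_closedBall.2 (by linarith)))
    have h2 : ‖(Ψ k x - f x) - (Ψ k y - f y)‖ ≤ 4 * η / R * ‖x - y‖ := by
      apply Pool.Agent.Helper540.lipschitz_half hdiff hbd
      · rw [mem_ball]; linarith
      · rw [mem_ball]
        calc dist x y ≤ dist x z0 + dist y z0 := dist_triangle_right _ _ _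
          _ < R / 2 := by linarith
    have h3 : 4 * η / R ≤ c := by
      rw [div_le_iff₀ hR]
      have : η ≤ c * R / 4 := min_le_left _ _
      linarith
    calc ‖Ψ k x - Ψ k y - (T : E →L[ℂ] E) (x - y)‖
        = ‖((Ψ k x - f x) - (Ψ k y - f y)) + (f x - f y - (T : E →L[ℂ] E) (x - y))‖ := by
          congr 1; abel
      _ ≤ ‖(Ψ k x - f x) - (Ψ k y - f y)‖ + ‖f x - f y - (T : E →L[ℂ] E) (x - y)‖ := norm_add_le _ _
      _ ≤ c * ‖x - y‖ + c * ‖x - y‖ := by
          have := mul_le_mul_of_nonneg_right h3 (norm_nonneg (x - y))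
          linarith
      _ = ((c + c : ℝ≥0) : ℝ) * ‖x - y‖ := by push_cast; ring
  have hsurj := hap'.surjOn_closedBall_of_nonlinearRightInverse T.toNonlinearRightInverse
    hε'0.le (subset_refl _)
  have hnn : (T.toNonlinearRightInverse.nnnorm : ℝ) = N := rfl
  have hval : ((T.toNonlinearRightInverse.nnnorm : ℝ)⁻¹ - ((c + c : ℝ≥0) : ℝ)) * ε' = 2 * c * ε' := by
    rw [hnn, ← hcc, hc]
    push_cast
    ring
  rw [hval] at hsurj
  have hmem : f z ∈ closedBall (Ψ k z0) (2 * c * ε') := by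
    rw [mem_closedBall]
    have h1 : dist (f z) (f z0) < c * ε' := hδf (mem_ball.1 hzδ)
    have h2 : dist (f z0) (Ψ k z0) < η := hk z0 (mem_closedBall_self hR.le)
    have h3 : η ≤ c * ε' := min_le_right _ _
    calc dist (f z) (Ψ k z0) ≤ dist (f z) (f z0) + dist (f z0) (Ψ k z0) := dist_triangle _ _ _
      _ ≤ 2 * c * ε' := by linarith
  obtain ⟨x, hx, hxe⟩ := hsurj hmem
  exact ⟨x, closedBall_subset_closedBall (min_le_left _ _) hx, hxe⟩

/-- If injective entire maps `Ψ k` with a common range `Ω` converge on the unit ball to the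
injective map `f`, then a closed analytic disc in `Ω` whose boundary is in the image of `f` is
contained in the image of `f`. -/
theorem disc_lemma [Nontrivial E] {f : E → E} (hf : DifferentiableOn ℂ f (ball 0 1))
    (hinj : InjOn f (ball 0 1)) {Ψ : ℕ → E → E} (hΨ : ∀ k, Differentiable ℂ (Ψ k))
    (hΨi : ∀ k, Function.Injective (Ψ k)) {Ω : Set E} (hΩ : ∀ k, range (Ψ k) = Ω)
    (hlim : TendstoLocallyUniformlyOn Ψ f atTop (ball 0 1))
    {α β : ℂ → E} (hα : Differentiable ℂ α) (hβ : ContinuousOn β (sphere 0 1))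
    (hβ1 : ∀ ζ ∈ sphere (0 : ℂ) 1, β ζ ∈ ball (0 : E) 1)
    (hβα : ∀ ζ ∈ sphere (0 : ℂ) 1, f (β ζ) = α ζ)
    (hαΩ : ∀ ζ ∈ closedBall (0 : ℂ) 1, α ζ ∈ Ω) :
    ∀ ζ ∈ closedBall (0 : ℂ) 1, ∃ x ∈ ball (0 : E) 1, f x = α ζ := by
  have hcE : CompleteSpace E := FiniteDimensional.complete ℂ E
  have hpE : ProperSpace E := FiniteDimensional.proper ℂ E
  set K : Set E := β '' sphere (0 : ℂ) 1 with hK
  have hKc : IsCompact K := (isCompact_sphere (0 : ℂ) 1).image_of_continuousOn hβ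
  have hK1 : K ⊆ ball 0 1 := by
    rintro _ ⟨ζ, hζ, rfl⟩
    exact hβ1 ζ hζ
  have hKne : K.Nonempty := ⟨β 1, 1, by simp, rfl⟩
  obtain ⟨zm, hzm, hmax⟩ := hKc.exists_isMaxOn hKne continuous_norm.continuousOn
  set r0 : ℝ := ‖zm‖ with hr0
  have hr01 : r0 < 1 := by
    have := hK1 hzm
    rwa [mem_ball_zero_iff] at this
  set r : ℝ := (1 + r0) / 2 with hr
  have hr1 : r < 1 := by linarith
  have hr0r : 0 ≤ r := by
    have := norm_nonneg zm
    linarith
  have hev : ∀ᶠ k in atTop, ∀ z ∈ K, ∃ x : E, ‖x‖ ≤ r ∧ Ψ k x = f z := by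
    refine hKc.induction_on (p := fun t => ∀ᶠ k in atTop, ∀ z ∈ t, ∃ x : E, ‖x‖ ≤ r ∧ Ψ k x = f z)
      ?_ ?_ ?_ ?_
    · exact Eventually.of_forall fun k z hz => absurd hz (notMem_empty z)
    · intro s t hst ht
      filter_upwards [ht] with k hk z hz
      exact hk z (hst hz)
    · intro s t hs ht
      filter_upwards [hs, ht] with k h1 h2 z hz
      rcases hz with hz | hz
      · exact h1 z hz
      · exact h2 z hz
    · intro z0 hz0
      obtain ⟨δ, hδ, h⟩ := local_surj isOpen_ball hf hinj (hK1 hz0)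
        (fun k => (hΨ k).differentiableOn) hlim (ε := (1 - r0) / 2) (by linarith)
      refine ⟨ball z0 δ, mem_nhdsWithin_of_mem_nhds (ball_mem_nhds z0 hδ), ?_⟩
      filter_upwards [h] with k hk z hz
      obtain ⟨x, hx, hxe⟩ := hk z hz
      refine ⟨x, ?_, hxe⟩
      have h1 : ‖z0‖ ≤ r0 := hmax hz0
      rw [mem_closedBall, dist_eq_norm] at hx
      calc ‖x‖ = ‖z0 + (x - z0)‖ := by congr 1; abel
        _ ≤ ‖z0‖ + ‖x - z0‖ := norm_add_le _ _
        _ ≤ r := by linarith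
  -- maximum principle
  have hev2 : ∀ᶠ k in atTop, ∀ ζ ∈ closedBall (0 : ℂ) 1, ∃ x : E, ‖x‖ ≤ r ∧ Ψ k x = α ζ := by
    filter_upwards [hev] with k hk
    have hΩ' : Ψ k '' univ = Ω := by rw [image_univ, hΩ k]
    have hΩo : IsOpen Ω := by
      rw [← hΩ']
      exact image_isOpen isOpen_univ (hΨ k).differentiableOn (hΨi k).injOn
    set Θ : E → E := Function.invFun (Ψ k) with hΘ
    have hΘr : ∀ y ∈ Ω, Ψ k (Θ y) = y := by
      intro y hy
      rw [← hΩ k] at hy
      exact Function.invFun_eq hy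
    have hΘd : DifferentiableOn ℂ Θ Ω := by
      have := inverse_diff (U := univ) isOpen_univ (hΨ k).differentiableOn (hΨi k).injOn (v := Θ)
        (fun y _ => mem_univ _) (fun y hy => hΘr y (hΩ' ▸ hy))
      rwa [hΩ'] at this
    have hd : DifferentiableOn ℂ (fun ζ => Θ (α ζ)) (closedBall (0 : ℂ) 1) := by
      intro ζ hζ
      apply DifferentiableAt.differentiableWithinAt
      exact (hΘd.differentiableAt (hΩo.mem_nhds (hαΩ ζ hζ))).comp ζ (hα ζ)
    have hdc : DiffContOnCl ℂ (fun ζ => Θ (α ζ)) (ball (0 : ℂ) 1) := by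
      apply DifferentiableOn.diffContOnCl
      rw [closure_ball _ one_ne_zero]
      exact hd
    intro ζ hζ
    refine ⟨Θ (α ζ), ?_, hΘr _ (hαΩ ζ hζ)⟩
    refine Complex.norm_le_of_forall_mem_frontier_norm_le isBounded_ball hdc ?_
      (by rw [closure_ball _ one_ne_zero]; exact hζ)
    intro ξ hξ
    rw [frontier_ball _ one_ne_zero] at hξ
    obtain ⟨x, hx, hxe⟩ := hk (β ξ) ⟨ξ, hξ, rfl⟩
    have h1 : Θ (α ξ) = x := by
      apply hΨi k
      rw [hΘr _ (hαΩ ξ (sphere_subset_closedBall hξ)), hxe, hβα ξ hξ]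
    rw [h1]
    exact hx
  intro ζ hζ
  have hsub : closedBall (0 : E) r ⊆ ball 0 1 := closedBall_subset_ball hr1
  have hcomp : IsCompact (f '' closedBall (0 : E) r) :=
    (isCompact_closedBall (0 : E) r).image_of_continuousOn (hf.continuousOn.mono hsub)
  have hunif := (tendstoLocallyUniformlyOn_iff_forall_isCompact isOpen_ball).1 hlim _ hsub
    (isCompact_closedBall (0 : E) r)
  rw [Metric.tendstoUniformlyOn_iff] at hunif
  have hmem : α ζ ∈ closure (f '' closedBall (0 : E) r) := by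
    rw [Metric.mem_closure_iff]
    intro η hη
    obtain ⟨k, hk1, hk2⟩ := (hev2.and (hunif η hη)).exists
    obtain ⟨x, hx, hxe⟩ := hk1 ζ hζ
    have hx' : x ∈ closedBall (0 : E) r := mem_closedBall_zero_iff.2 hx
    refine ⟨f x, ⟨x, hx', rfl⟩, ?_⟩
    rw [← hxe, dist_comm]
    exact hk2 x hx'
  rw [hcomp.isClosed.closure_eq] at hmem
  obtain ⟨x, hx, hxe⟩ := hmem
  exact ⟨x, hsub hx, hxe⟩

end Pool.Agent.W2helper19
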