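import Mathlib

/-!
A holomorphic map of the unit disc into `ℂ⁴` with wild boundary behaviour at every boundary point.
-/

set_option autoImplicit false

open Metric Set Filter Topology

namespace Pool.Agent.W2helper19

/-- A stage of the construction: an entire map vanishing to second order at the origin, and a
radius less than one. -/
structure St where
  S : ℂ → (Fin 4 → ℂ)
  ρ : ℝ
  hS : Differentiable ℂ S
  h0 : S 0 = 0
  h1 : deriv S 0 = 0
  hρ : ρ < 1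

theorem step (m : ℕ) (s : St) (t : ℂ) (ht : ‖t‖ = 1) (q : Fin 3 → ℂ) :
    ∃ (s' : St) (w : ℂ) (N : ℕ),
      s.ρ ≤ s'.ρ ∧ ‖w‖ ≤ s'.ρ ∧ ‖w - t‖ < 1 / ((m : ℝ) + 1) ∧
      s'.S w = (Fin.cons (N : ℂ) q : Fin 4 → ℂ) ∧
      (m : ℝ) < Real.exp (2 * N - 4) * (1 - ‖w‖ ^ 2) ∧
      ∀ z, ‖z‖ ≤ max s.ρ (1 - 1 / ((m : ℝ) + 2)) → ‖s'.S z - s.S z‖ ≤ (1 / 2 : ℝ) ^ m := by
  obtain ⟨C, hC⟩ := (isCompact_closedBall (0 : ℂ) 1).exists_bound_of_continuousOn
    s.hS.continuous.continuousOn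
  set r : ℝ := max s.ρ (1 - 1 / ((m : ℝ) + 2)) with hr
  have hm2 : (0 : ℝ) < (m : ℝ) + 2 := by positivity
  have hr1 : r < 1 := by
    refine max_lt s.hρ ?_
    have : 0 < 1 / ((m : ℝ) + 2) := by positivity
    linarith
  have hr0 : 0 < r := by
    refine lt_of_lt_of_le ?_ (le_max_right _ _)
    have : 1 / ((m : ℝ) + 2) ≤ 1 / 2 := by
      apply one_div_le_one_div_of_le (by norm_num)
      have : (0 : ℝ) ≤ m := Nat.cast_nonneg m
      linarith
    linarith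
  -- choice of the exponent
  have e1 : ∀ᶠ N : ℕ in atTop, 2 * r ^ N * (N + ‖q‖ + C) ≤ (1 / 2 : ℝ) ^ m := by
    have h1 : Tendsto (fun N : ℕ => 2 * ((N : ℝ) * r ^ N) + 2 * (‖q‖ + C) * r ^ N) atTop
        (𝓝 (2 * 0 + 2 * (‖q‖ + C) * 0)) := by
      apply Tendsto.add
      · exact (tendsto_self_mul_const_pow_of_lt_one hr0.le hr1).const_mul _
      · exact (tendsto_pow_atTop_nhds_zero_of_lt_one hr0.le hr1).const_mul _
    have h2 : (2 * 0 + 2 * (‖q‖ + C) * 0 : ℝ) < (1 / 2 : ℝ) ^ m := by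
      simp only [mul_zero, add_zero]; positivity
    filter_upwards [h1.eventually (gt_mem_nhds h2)] with N hN
    refine le_of_eq_of_le ?_ hN.le
    ring
  have e2 : ∀ᶠ N : ℕ in atTop, (m : ℝ) + 2 < Real.exp N / (N : ℝ) ^ 2 :=
    ((Real.tendsto_exp_div_pow_atTop 2).comp tendsto_natCast_atTop_atTop).eventually_gt_atTop _
  obtain ⟨N, ⟨hN1, hN2⟩, hN3⟩ := ((e1.and e2).and (eventually_ge_atTop (m + 4))).exists
  have hN4 : (m : ℝ) + 4 ≤ N := by exact_mod_cast hN3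
  have hm0 : (0 : ℝ) ≤ m := Nat.cast_nonneg m
  have hNpos : (0 : ℝ) < N := by linarith
  have hN2' : (1 : ℝ) / (N : ℝ) ^ 2 ≤ 1 / N := by
    apply one_div_le_one_div_of_le hNpos
    nlinarith
  have hNm : (1 : ℝ) / N < 1 / ((m : ℝ) + 1) := by
    apply one_div_lt_one_div_of_lt (by positivity); linarith
  have hN14 : (1 : ℝ) / N ≤ 1 / 4 := one_div_le_one_div_of_le (by norm_num) (by linarith)
  have hd0 : 0 < 1 / (N : ℝ) ^ 2 := by positivity
  set w : ℂ := ((1 - 1 / (N : ℝ) ^ 2 : ℝ) : ℂ) * t with hw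
  have hwn : ‖w‖ = 1 - 1 / (N : ℝ) ^ 2 := by
    rw [hw, norm_mul, ht, mul_one, Complex.norm_real, Real.norm_of_nonneg (by linarith)]
  have hw0 : w ≠ 0 := by
    rw [← norm_pos_iff, hwn]; linarith
  have hwt : ‖w - t‖ = 1 / (N : ℝ) ^ 2 := by
    have : w - t = ((-(1 / (N : ℝ) ^ 2) : ℝ) : ℂ) * t := by
      rw [hw]; push_cast; ring
    rw [this, norm_mul, ht, mul_one, Complex.norm_real, norm_neg, Real.norm_of_nonneg hd0.le]
  have hwN : 1 / 2 ≤ ‖w‖ ^ N := by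
    have h1 := one_add_mul_le_pow (a := -(1 / (N : ℝ) ^ 2)) (by linarith) N
    rw [hwn]
    have h2 : (N : ℝ) * -(1 / (N : ℝ) ^ 2) = -(1 / N) := by field_simp
    rw [h2] at h1
    have h3 : (1 : ℝ) + -(1 / (N : ℝ) ^ 2) = 1 - 1 / (N : ℝ) ^ 2 := by ring
    rw [h3] at h1
    linarith
  set T : Fin 4 → ℂ := Fin.cons (N : ℂ) q with hT
  have hTn : ‖T‖ ≤ N + ‖q‖ := by
    rw [pi_norm_le_iff_of_nonneg (by positivity)]
    intro i
    refine Fin.cases ?_ (fun j => ?_) i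
    · rw [hT, Fin.cons_zero, Complex.norm_natCast]
      linarith [norm_nonneg q]
    · rw [hT, Fin.cons_succ]
      linarith [norm_le_pi_norm q j]
  have hSw : ‖s.S w‖ ≤ C := hC w (by rw [mem_closedBall_zero_iff, hwn]; linarith)
  have hN0 : N ≠ 0 := by omega
  have hN1' : N - 1 ≠ 0 := by omega
  let s' : St :=
    { S := fun z => s.S z + (z / w) ^ N • (T - s.S w)
      ρ := max s.ρ ‖w‖
      hS := s.hS.add (((differentiable_id.div_const w).pow N).smul_const _)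
      h0 := by
        simp [s.h0, hN0]
      h1 := by
        have h2 : HasDerivAt s.S 0 0 := by
          have := (s.hS 0).hasDerivAt
          rwa [s.h1] at this
        have h3 : HasDerivAt (fun z : ℂ => (z / w) ^ N) (N * (0 / w) ^ (N - 1) * (1 / w)) 0 :=
          ((hasDerivAt_id (0 : ℂ)).div_const w).pow N
        have h4 := h2.add (h3.smul_const (T - s.S w))
        have h5 : (0 : Fin 4 → ℂ) + (N * (0 / w) ^ (N - 1) * (1 / w)) • (T - s.S w) = 0 := by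
          rw [zero_div, zero_pow hN1']
          simp
        rw [h5] at h4
        exact h4.deriv
      hρ := max_lt s.hρ (by rw [hwn]; linarith) }
  refine ⟨s', w, N, le_max_left _ _, le_max_right _ _, by rw [hwt]; linarith, ?_, ?_, ?_⟩
  · change s.S w + (w / w) ^ N • (T - s.S w) = T
    rw [div_self hw0, one_pow, one_smul, add_sub_cancel]
  · have h1 : 1 / (N : ℝ) ^ 2 ≤ 1 - ‖w‖ ^ 2 := by
      rw [hwn]
      nlinarith
    have h2 : Real.exp N ≤ Real.exp (2 * N - 4) := by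
      apply Real.exp_le_exp.2; linarith
    calc (m : ℝ) < Real.exp N / (N : ℝ) ^ 2 := by linarith
      _ = Real.exp N * (1 / (N : ℝ) ^ 2) := by ring
      _ ≤ Real.exp (2 * N - 4) * (1 - ‖w‖ ^ 2) := by
        apply mul_le_mul h2 h1 hd0.le (Real.exp_pos _).le
  · intro z hz
    have h1 : s'.S z - s.S z = (z / w) ^ N • (T - s.S w) := by
      change s.S z + (z / w) ^ N • (T - s.S w) - s.S z = _
      rw [add_sub_cancel_left]
    rw [h1, norm_smul, norm_pow, norm_div, div_pow]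
    have h2 : ‖z‖ ^ N / ‖w‖ ^ N ≤ 2 * r ^ N := by
      rw [div_le_iff₀ (by linarith)]
      have h3 : ‖z‖ ^ N ≤ r ^ N := pow_le_pow_left₀ (norm_nonneg _) hz N
      have h4 : 0 ≤ r ^ N := by positivity
      nlinarith
    have h3 : ‖T - s.S w‖ ≤ N + ‖q‖ + C := by
      refine (norm_sub_le _ _).trans ?_
      linarith
    calc ‖z‖ ^ N / ‖w‖ ^ N * ‖T - s.S w‖ ≤ 2 * r ^ N * (N + ‖q‖ + C) := by
          apply mul_le_mul h2 h3 (norm_nonneg _) (by positivity)
      _ ≤ _ := hN1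

/-- There is a holomorphic map `h` of the unit disc into `ℂ⁴`, vanishing to second order at the
origin, such that for every `t` on the unit circle and every `q ∈ ℂ³` there are points `w` of the
disc near `t` at which `(h₁, h₂, h₃)` is close to `q` and `exp (Re h₀ (w))² (1 - |w|²)` is large. -/
theorem exists_wild : ∃ h : ℂ → (Fin 4 → ℂ), DifferentiableOn ℂ h (ball 0 1) ∧ h 0 = 0 ∧
    deriv h 0 = 0 ∧
    ∀ t : ℂ, ‖t‖ = 1 → ∀ q : Fin 3 → ℂ, ∀ ε : ℝ, 0 < ε → ∃ w : ℂ, ‖w‖ < 1 ∧ ‖w - t‖ < ε ∧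
      (∀ i : Fin 3, ‖h w i.succ - q i‖ < ε) ∧
      1 / ε < Real.exp (h w 0).re ^ 2 * (1 - ‖w‖ ^ 2) := by
  classical
  let X := Circle × (Fin 3 → ℂ)
  let d : ℕ → X := TopologicalSpace.denseSeq X
  have hdense : DenseRange d := TopologicalSpace.denseRange_denseSeq X
  clear_value d
  obtain ⟨tt, htt0⟩ : ∃ tt : ℕ → ℂ, ∀ m, tt m = ((d (Nat.unpair m).1).1 : ℂ) := ⟨_, fun m => rfl⟩
  obtain ⟨qq, hqq0⟩ : ∃ qq : ℕ → (Fin 3 → ℂ), ∀ m, qq m = (d (Nat.unpair m).1).2 :=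
    ⟨_, fun m => rfl⟩
  have htt : ∀ m, ‖tt m‖ = 1 := fun m => by rw [htt0]; exact Circle.norm_coe _
  obtain ⟨seq, wf, Nf, hseq0, H1, H2, H3, H4, H5, H6⟩ : ∃ (seq : ℕ → St) (wf : ℕ → ℂ) (Nf : ℕ → ℕ),
      (∀ z, (seq 0).S z = 0) ∧ (∀ m, (seq m).ρ ≤ (seq (m + 1)).ρ) ∧
      (∀ m, ‖wf m‖ ≤ (seq (m + 1)).ρ) ∧ (∀ m, ‖wf m - tt m‖ < 1 / ((m : ℝ) + 1)) ∧
      (∀ m, (seq (m + 1)).S (wf m) = (Fin.cons (Nf m : ℂ) (qq m) : Fin 4 → ℂ)) ∧
      (∀ m : ℕ, (m : ℝ) < Real.exp (2 * Nf m - 4) * (1 - ‖wf m‖ ^ 2)) ∧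
      (∀ m z, ‖z‖ ≤ max (seq m).ρ (1 - 1 / ((m : ℝ) + 2)) →
        ‖(seq (m + 1)).S z - (seq m).S z‖ ≤ (1 / 2 : ℝ) ^ m) := by
    choose next wf Nf H1 H2 H3 H4 H5 H6 using
      fun (m : ℕ) (s : St) => step m s (tt m) (htt m) (qq m)
    let seq : ℕ → St := fun m => Nat.rec ⟨fun _ => 0, 0, differentiable_const _, rfl, by simp,
      by norm_num⟩ (fun m s => next m s) m
    exact ⟨seq, fun m => wf m (seq m), fun m => Nf m (seq m), fun z => rfl,
      fun m => H1 m (seq m), fun m => H2 m (seq m), fun m => H3 m (seq m), fun m => H4 m (seq m),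
      fun m => H5 m (seq m), fun m => H6 m (seq m)⟩
  have hmono : Monotone fun m => (seq m).ρ := monotone_nat_of_le_succ H1
  let D : ℕ → ℂ → (Fin 4 → ℂ) := fun m z => (seq (m + 1)).S z - (seq m).S z
  have hD : ∀ m z, ‖z‖ ≤ max (seq m).ρ (1 - 1 / ((m : ℝ) + 2)) → ‖D m z‖ ≤ (1 / 2 : ℝ) ^ m := H6
  have hsum2 : Summable fun m : ℕ => (1 / 2 : ℝ) ^ m := summable_geometric_two
  -- pointwise summability
  have hex : ∀ r : ℝ, r < 1 → ∃ k : ℕ, ∀ m, k ≤ m → r ≤ 1 - 1 / ((m : ℝ) + 2) := by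
    intro r hr
    obtain ⟨k, hk⟩ := exists_nat_gt (1 / (1 - r))
    refine ⟨k, fun m hm => ?_⟩
    have h1 : (k : ℝ) ≤ m := by exact_mod_cast hm
    have h2 : 0 < 1 - r := by linarith
    have h3 : 1 / ((m : ℝ) + 2) ≤ 1 - r := by
      rw [div_le_iff₀ (by positivity)]
      rw [div_lt_iff₀ h2] at hk
      nlinarith
    linarith
  have htail : ∀ (k : ℕ) (z : ℂ), (∀ m, k ≤ m → ‖z‖ ≤ max (seq m).ρ (1 - 1 / ((m : ℝ) + 2))) →
      Summable (fun m => D (m + k) z) ∧ Summable (fun m => D m z) := by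
    intro k z hz
    have h1 : Summable (fun m => D (m + k) z) := by
      refine Summable.of_norm_bounded ((summable_nat_add_iff k).2 hsum2) fun m => ?_
      exact hD (m + k) z (hz _ (Nat.le_add_left k m))
    exact ⟨h1, (summable_nat_add_iff k).1 h1⟩
  let h : ℂ → (Fin 4 → ℂ) := fun z => ∑' m, D m z
  have hpart : ∀ (k : ℕ) (z : ℂ), ∑ m ∈ Finset.range k, D m z = (seq k).S z := by
    intro k z
    have h1 : ∑ m ∈ Finset.range k, D m z = (seq k).S z - (seq 0).S z :=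
      Finset.sum_range_sub (fun m => (seq m).S z) k
    rw [h1, hseq0, sub_zero]
  have hrep : ∀ (k : ℕ) (z : ℂ), (∀ m, k ≤ m → ‖z‖ ≤ max (seq m).ρ (1 - 1 / ((m : ℝ) + 2))) →
      h z = (seq k).S z + ∑' m, D (m + k) z := by
    intro k z hz
    have h1 := (htail k z hz).2.sum_add_tsum_nat_add k
    rw [hpart] at h1
    exact h1.symm
  have hbd : ∀ (k : ℕ) (z : ℂ), (∀ m, k ≤ m → ‖z‖ ≤ max (seq m).ρ (1 - 1 / ((m : ℝ) + 2))) →
      ‖h z - (seq k).S z‖ ≤ 2 * (1 / 2 : ℝ) ^ k := by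
    intro k z hz
    rw [hrep k z hz, add_sub_cancel_left]
    have h1 : Summable fun m : ℕ => (1 / 2 : ℝ) ^ (m + k) := (summable_nat_add_iff k).2 hsum2
    refine (tsum_of_norm_bounded h1.hasSum fun m => hD (m + k) z (hz _ (Nat.le_add_left k m))).trans
      (le_of_eq ?_)
    simp_rw [pow_add]
    rw [tsum_mul_right, tsum_geometric_two]
  -- locally uniform convergence
  have hlu : TendstoLocallyUniformlyOn (fun k z => (seq k).S z) h atTop (ball 0 1) := by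
    rw [tendstoLocallyUniformlyOn_iff_forall_isCompact isOpen_ball]
    intro K hK hKc
    rw [Metric.tendstoUniformlyOn_iff]
    intro ε hε
    obtain ⟨r, hr1, hrK⟩ : ∃ r : ℝ, r < 1 ∧ ∀ z ∈ K, ‖z‖ ≤ r := by
      rcases K.eq_empty_or_nonempty with rfl | hne
      · exact ⟨0, by norm_num, by simp⟩
      · obtain ⟨z0, hz0, hmax⟩ := hKc.exists_isMaxOn hne continuous_norm.continuousOn
        refine ⟨‖z0‖, ?_, fun z hz => hmax hz⟩
        have := hK hz0
        rwa [mem_ball_zero_iff] at this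
    obtain ⟨k0, hk0⟩ := hex r hr1
    have h2 : Tendsto (fun k : ℕ => 2 * (1 / 2 : ℝ) ^ k) atTop (𝓝 (2 * 0)) :=
      (tendsto_pow_atTop_nhds_zero_of_lt_one (by norm_num) (by norm_num)).const_mul 2
    rw [mul_zero] at h2
    filter_upwards [h2.eventually (gt_mem_nhds hε), eventually_ge_atTop k0] with k hk hkk z hz
    rw [dist_eq_norm]
    refine (hbd k z fun m hm => ?_).trans_lt hk
    exact (hrK z hz).trans ((hk0 m (hkk.trans hm)).trans (le_max_right _ _))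
  have hdiff : DifferentiableOn ℂ h (ball 0 1) :=
    hlu.differentiableOn (Eventually.of_forall fun k => (seq k).hS.differentiableOn) isOpen_ball
  refine ⟨h, hdiff, ?_, ?_, ?_⟩
  · change ∑' m, D m 0 = 0
    have : ∀ m, D m 0 = 0 := fun m => by
      change (seq (m + 1)).S 0 - (seq m).S 0 = 0
      rw [(seq (m + 1)).h0, (seq m).h0, sub_zero]
    simp [this]
  · have h1 := hlu.deriv (Eventually.of_forall fun k => (seq k).hS.differentiableOn) isOpen_ball
    have h2 := h1.tendsto_at (mem_ball_self (x := (0 : ℂ)) (by norm_num : (0 : ℝ) < 1))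
    have h3 : (fun k => deriv (fun z => (seq k).S z) 0) = fun _ => 0 := by
      funext k
      exact (seq k).h1
    have h4 : Tendsto (fun k : ℕ => deriv (fun z => (seq k).S z) 0) atTop (𝓝 (deriv h 0)) := h2
    rw [h3] at h4
    exact (tendsto_nhds_unique h4 tendsto_const_nhds)
  · intro t ht q ε hε
    obtain ⟨i, hi⟩ : ∃ i, dist (d i) ((⟨t, mem_sphere_zero_iff_norm.2 ht⟩ : Circle), q) < ε / 2 := by
      have := hdense.exists_dist_lt
        ((⟨t, mem_sphere_zero_iff_norm.2 ht⟩ : Circle), q) (half_pos hε)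
      obtain ⟨i, hi⟩ := this
      exact ⟨i, by rw [dist_comm]; exact hi⟩
    rw [Prod.dist_eq, max_lt_iff] at hi
    have hsmall : Tendsto (fun k : ℕ => 2 * (1 / 2 : ℝ) ^ (k + 1)) atTop (𝓝 0) := by
      have h2 : Tendsto (fun k : ℕ => 2 * (1 / 2 : ℝ) ^ k) atTop (𝓝 (2 * 0)) :=
        (tendsto_pow_atTop_nhds_zero_of_lt_one (by norm_num) (by norm_num)).const_mul 2
      rw [mul_zero] at h2
      exact h2.comp (tendsto_add_atTop_nat 1)
    have hinv : Tendsto (fun k : ℕ => 1 / ((k : ℝ) + 1)) atTop (𝓝 0) :=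
      tendsto_one_div_add_atTop_nhds_zero_nat
    have hall : ∀ᶠ m : ℕ in atTop, 2 * (1 / 2 : ℝ) ^ (m + 1) < ε / 2 ∧
        1 / ((m : ℝ) + 1) < ε / 2 ∧ 1 / ε < m := by
      filter_upwards [hsmall.eventually (gt_mem_nhds (half_pos hε)),
        hinv.eventually (gt_mem_nhds (half_pos hε)),
        tendsto_natCast_atTop_atTop.eventually_gt_atTop (1 / ε)] with m h1 h2 h3
      exact ⟨h1, h2, h3⟩
    obtain ⟨M, hM⟩ := eventually_atTop.1 hall
    set m := Nat.pair i M with hm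
    obtain ⟨hm1, hm2, hm3⟩ := hM m (Nat.right_le_pair i M)
    have hmi : (Nat.unpair m).1 = i := by rw [hm, Nat.unpair_pair]
    have hwρ : ‖wf m‖ ≤ (seq (m + 1)).ρ := H2 m
    have hw1 : ‖wf m‖ < 1 := hwρ.trans_lt (seq (m + 1)).hρ
    have hwt : ‖wf m - tt m‖ < 1 / ((m : ℝ) + 1) := H3 m
    have hSw : (seq (m + 1)).S (wf m) = (Fin.cons (Nf m : ℂ) (qq m) : Fin 4 → ℂ) := H4 m
    have hexp : (m : ℝ) < Real.exp (2 * Nf m - 4) * (1 - ‖wf m‖ ^ 2) := H5 m
    generalize wf m = w at hwρ hw1 hwt hSw hexp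
    generalize Nf m = N at hSw hexp
    have herr : ‖h w - (seq (m + 1)).S w‖ ≤ 2 * (1 / 2 : ℝ) ^ (m + 1) := by
      apply hbd
      intro k hk
      exact hwρ.trans ((hmono hk).trans (le_max_left _ _))
    have htm : tt m = (d i).1 := by rw [htt0, hmi]
    have hqm : qq m = (d i).2 := by rw [hqq0, hmi]
    refine ⟨w, hw1, ?_, ?_, ?_⟩
    · have h1 : ‖tt m - t‖ < ε / 2 := by
        rw [htm, ← dist_eq_norm]
        exact hi.1
      calc ‖w - t‖ ≤ ‖w - tt m‖ + ‖tt m - t‖ := norm_sub_le_norm_sub_add_norm_sub _ _ _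
        _ < ε / 2 + ε / 2 := by linarith
        _ = ε := by ring
    · intro j
      have h1 : ‖h w j.succ - (seq (m + 1)).S w j.succ‖ ≤ 2 * (1 / 2 : ℝ) ^ (m + 1) :=
        (norm_le_pi_norm (h w - (seq (m + 1)).S w) j.succ).trans herr
      rw [hSw, Fin.cons_succ] at h1
      have h2 : ‖qq m j - q j‖ < ε / 2 := by
        rw [hqm]
        have h3 := hi.2
        rw [dist_eq_norm] at h3
        exact (norm_le_pi_norm ((d i).2 - q) j).trans_lt h3
      calc ‖h w j.succ - q j‖ ≤ ‖h w j.succ - qq m j‖ + ‖qq m j - q j‖ :=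
            norm_sub_le_norm_sub_add_norm_sub _ _ _
        _ < ε / 2 + ε / 2 := by linarith
        _ = ε := by ring
    · have h1 : ‖h w 0 - (seq (m + 1)).S w 0‖ ≤ 2 * (1 / 2 : ℝ) ^ (m + 1) :=
        (norm_le_pi_norm (h w - (seq (m + 1)).S w) 0).trans herr
      rw [hSw, Fin.cons_zero] at h1
      have h2 : 2 * (1 / 2 : ℝ) ^ (m + 1) ≤ 2 := by
        have : (1 / 2 : ℝ) ^ (m + 1) ≤ 1 := pow_le_one₀ (by norm_num) (by norm_num)
        linarith
      have h3 : (N : ℝ) - 2 ≤ (h w 0).re := by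
        have h4 : |(h w 0 - (N : ℂ)).re| ≤ 2 := (Complex.abs_re_le_norm _).trans (h1.trans h2)
        rw [Complex.sub_re, Complex.natCast_re, abs_le] at h4
        linarith
      have h5 : Real.exp (2 * N - 4) ≤ Real.exp (h w 0).re ^ 2 := by
        rw [← Real.exp_nat_mul]
        apply Real.exp_le_exp.2
        push_cast
        linarith
      have h6 : 0 ≤ 1 - ‖w‖ ^ 2 := by
        have := norm_nonneg w
        nlinarith
      calc 1 / ε < m := hm3
        _ < Real.exp (2 * N - 4) * (1 - ‖w‖ ^ 2) := hexp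
        _ ≤ _ := mul_le_mul_of_nonneg_right h5 h6

end Pool.Agent.W2helper19
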