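import Mathlib
import Pool.Agent.W2helper19.Wild
import Pool.Agent.W2helper19.Sev

/-!
A normalized univalent map of the unit ball of `ℂ⁴` with non-Runge image which is not the limit of
univalent entire maps with a common range.
-/

set_option autoImplicit false

open Metric Set Filter Topology Module

namespace Pool.Agent.W2helper19

/-- Injectivity of `(x, y, u) ↦ (x, y (1 - x y - u), u + 2 x y)` on `{|u| < 1}`. -/
theorem wermer_inj {x y u y' u' : ℂ} (hu : ‖u‖ < 1) (hu' : ‖u'‖ < 1)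
    (h2 : y * (1 - x * y - u) = y' * (1 - x * y' - u')) (h3 : u + 2 * (x * y) = u' + 2 * (x * y')) :
    y = y' ∧ u = u' := by
  have hprod : (x * y - x * y') * (1 - u - 2 * (x * y) + x * y + x * y') = 0 := by
    linear_combination x * h2 + (x * y') * h3
  rcases mul_eq_zero.1 hprod with h | h
  · have hs : x * y = x * y' := sub_eq_zero.1 h
    have huu : u = u' := by linear_combination h3 - 2 * hs
    refine ⟨?_, huu⟩
    by_cases hx : x = 0
    · subst hx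
      rw [huu] at h2
      have h4 : (y - y') * (1 - u') = 0 := by linear_combination h2
      rcases mul_eq_zero.1 h4 with h5 | h5
      · exact sub_eq_zero.1 h5
      · exfalso
        have : u' = 1 := by linear_combination -h5
        rw [this, norm_one] at hu'
        exact lt_irrefl _ hu'
    · exact mul_left_cancel₀ hx hs
  · exfalso
    have h4 : u + u' = 2 := by linear_combination -2 * h - h3
    have h5 : ‖u + u'‖ < 2 := (norm_add_le _ _).trans_lt (by linarith)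
    rw [h4, Complex.norm_ofNat] at h5
    exact lt_irrefl _ h5

/-- Data of the construction: the factor `lam` and the translations. -/
structure Data where
  h : ℂ → (Fin 4 → ℂ)
  diff : DifferentiableOn ℂ h (ball 0 1)
  zero : h 0 = 0
  dzero : deriv h 0 = 0

namespace Data

variable (D : Data)

/-- the factor -/
noncomputable def lam (w : ℂ) : ℂ := Complex.exp (D.h w 0)

/-- the univalent map -/
noncomputable def f (z : EuclideanSpace ℂ (Fin 4)) : EuclideanSpace ℂ (Fin 4) :=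
  !₂[D.lam (z 3) * z 0 + D.h (z 3) 1,
    D.lam (z 3) * z 1 * (1 - D.lam (z 3) * z 0 * (D.lam (z 3) * z 1) - z 2) + D.h (z 3) 2,
    z 2 + 2 * (D.lam (z 3) * z 0 * (D.lam (z 3) * z 1)) + D.h (z 3) 3,
    z 3]

theorem f0 (z : EuclideanSpace ℂ (Fin 4)) : D.f z 0 = D.lam (z 3) * z 0 + D.h (z 3) 1 := rfl
theorem f1 (z : EuclideanSpace ℂ (Fin 4)) : D.f z 1 =
    D.lam (z 3) * z 1 * (1 - D.lam (z 3) * z 0 * (D.lam (z 3) * z 1) - z 2) + D.h (z 3) 2 := rfl
theorem f2 (z : EuclideanSpace ℂ (Fin 4)) : D.f z 2 =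
    z 2 + 2 * (D.lam (z 3) * z 0 * (D.lam (z 3) * z 1)) + D.h (z 3) 3 := rfl
theorem f3 (z : EuclideanSpace ℂ (Fin 4)) : D.f z 3 = z 3 := rfl

theorem lam_ne (w : ℂ) : D.lam w ≠ 0 := Complex.exp_ne_zero _

theorem coord_lt {z : EuclideanSpace ℂ (Fin 4)} (hz : z ∈ ball (0 : EuclideanSpace ℂ (Fin 4)) 1)
    (i : Fin 4) : ‖z i‖ < 1 :=
  (PiLp.norm_apply_le z i).trans_lt (mem_ball_zero_iff.1 hz)

theorem injOn : InjOn D.f (ball 0 1) := by
  intro z hz z' hz' h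
  have e3 : z 3 = z' 3 := by rw [← D.f3 z, ← D.f3 z', h]
  have e0 : D.f z 0 = D.f z' 0 := by rw [h]
  have e1 : D.f z 1 = D.f z' 1 := by rw [h]
  have e2 : D.f z 2 = D.f z' 2 := by rw [h]
  rw [f0, f0, ← e3] at e0
  rw [f1, f1, ← e3] at e1
  rw [f2, f2, ← e3] at e2
  have a0 : z 0 = z' 0 := mul_left_cancel₀ (D.lam_ne (z 3)) (add_right_cancel e0)
  rw [← a0] at e1 e2
  have a12 := wermer_inj (coord_lt hz 2) (coord_lt hz' 2) (add_right_cancel e1) (add_right_cancel e2)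
  have a1 : z 1 = z' 1 := mul_left_cancel₀ (D.lam_ne (z 3)) a12.1
  ext i
  fin_cases i
  · exact a0
  · exact a1
  · exact a12.2
  · exact e3

theorem coord_diff (i : Fin 4) : DifferentiableOn ℂ (fun w => D.h w i) (ball 0 1) :=
  differentiableOn_pi.1 D.diff i

theorem proj_diff (i : Fin 4) : Differentiable ℂ (fun z : EuclideanSpace ℂ (Fin 4) => z i) :=
  (EuclideanSpace.proj i : EuclideanSpace ℂ (Fin 4) →L[ℂ] ℂ).differentiable

theorem comp_diff {g : ℂ → ℂ} (hg : DifferentiableOn ℂ g (ball 0 1)) :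
    DifferentiableOn ℂ (fun z : EuclideanSpace ℂ (Fin 4) => g (z 3)) (ball 0 1) :=
  hg.comp (proj_diff 3).differentiableOn fun _ hz => mem_ball_zero_iff.2 (coord_lt hz 3)

theorem lam_diff : DifferentiableOn ℂ D.lam (ball 0 1) := (D.coord_diff 0).cexp

theorem differentiableOn : DifferentiableOn ℂ D.f (ball 0 1) := by
  rw [differentiableOn_euclidean]
  have hl := comp_diff D.lam_diff
  have h0 := (proj_diff 0).differentiableOn (s := ball (0 : EuclideanSpace ℂ (Fin 4)) 1)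
  have h1 := (proj_diff 1).differentiableOn (s := ball (0 : EuclideanSpace ℂ (Fin 4)) 1)
  have h2 := (proj_diff 2).differentiableOn (s := ball (0 : EuclideanSpace ℂ (Fin 4)) 1)
  have h3 := (proj_diff 3).differentiableOn (s := ball (0 : EuclideanSpace ℂ (Fin 4)) 1)
  intro i
  fin_cases i
  · exact (hl.mul h0).add (comp_diff (D.coord_diff 1))
  · exact ((hl.mul h1).mul (((differentiableOn_const 1).sub ((hl.mul h0).mul (hl.mul h1))).sub h2)).add
      (comp_diff (D.coord_diff 2))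
  · exact (h2.add ((((hl.mul h0).mul (hl.mul h1))).const_mul 2)).add (comp_diff (D.coord_diff 3))
  · exact h3

theorem lam_zero : D.lam 0 = 1 := by
  rw [lam, D.zero]; simp

theorem f_zero : D.f 0 = 0 := by
  ext i
  fin_cases i
  · change D.lam ((0 : EuclideanSpace ℂ (Fin 4)) 3) * (0 : EuclideanSpace ℂ (Fin 4)) 0 +
      D.h ((0 : EuclideanSpace ℂ (Fin 4)) 3) 1 = 0
    simp [D.zero]
  · change D.lam ((0 : EuclideanSpace ℂ (Fin 4)) 3) * (0 : EuclideanSpace ℂ (Fin 4)) 1 * _ +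
      D.h ((0 : EuclideanSpace ℂ (Fin 4)) 3) 2 = 0
    simp [D.zero]
  · change (0 : EuclideanSpace ℂ (Fin 4)) 2 + 2 * (_ * (0 : EuclideanSpace ℂ (Fin 4)) 0 * _) +
      D.h ((0 : EuclideanSpace ℂ (Fin 4)) 3) 3 = 0
    simp [D.zero]
  · rfl

theorem hasFDerivAt_eucl {f : EuclideanSpace ℂ (Fin 4) → EuclideanSpace ℂ (Fin 4)}
    {f' : EuclideanSpace ℂ (Fin 4) →L[ℂ] EuclideanSpace ℂ (Fin 4)} {y : EuclideanSpace ℂ (Fin 4)} :
    HasFDerivAt f f' y ↔ ∀ i : Fin 4, HasFDerivAt (fun x => f x i)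
      ((EuclideanSpace.proj i : EuclideanSpace ℂ (Fin 4) →L[ℂ] ℂ) ∘L f') y := by
  rw [← hasFDerivWithinAt_univ, hasFDerivWithinAt_euclidean]
  simp only [hasFDerivWithinAt_univ]

theorem hasDeriv_h (i : Fin 4) : HasDerivAt (fun w => D.h w i) 0 0 := by
  have h1 : HasDerivAt D.h (deriv D.h 0) 0 :=
    (D.diff.differentiableAt (ball_mem_nhds 0 one_pos)).hasDerivAt
  rw [D.dzero] at h1
  exact (hasDerivAt_pi.1 h1) i

theorem fderiv_zero : fderiv ℂ D.f 0 = ContinuousLinearMap.id ℂ (EuclideanSpace ℂ (Fin 4)) := by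
  apply HasFDerivAt.fderiv
  rw [hasFDerivAt_eucl]
  have pr : ∀ i : Fin 4, HasFDerivAt (fun z : EuclideanSpace ℂ (Fin 4) => z i)
      (EuclideanSpace.proj i : EuclideanSpace ℂ (Fin 4) →L[ℂ] ℂ) 0 := fun i =>
    (EuclideanSpace.proj i : EuclideanSpace ℂ (Fin 4) →L[ℂ] ℂ).hasFDerivAt
  have hh : ∀ i : Fin 4, HasFDerivAt (fun z : EuclideanSpace ℂ (Fin 4) => D.h (z 3) i)
      (0 : EuclideanSpace ℂ (Fin 4) →L[ℂ] ℂ) 0 := by
    intro i
    have h1 : HasDerivAt (fun w => D.h w i) 0 ((0 : EuclideanSpace ℂ (Fin 4)) 3) := D.hasDeriv_h i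
    have h2 := h1.comp_hasFDerivAt (0 : EuclideanSpace ℂ (Fin 4)) (pr 3)
    refine h2.congr_fderiv ?_
    ext z
    simp
  have hl : HasFDerivAt (fun z : EuclideanSpace ℂ (Fin 4) => D.lam (z 3))
      (0 : EuclideanSpace ℂ (Fin 4) →L[ℂ] ℂ) 0 := by
    have h2 := (hh 0).cexp
    refine h2.congr_fderiv ?_
    ext z
    simp
  have hv : ∀ i : Fin 4, (0 : EuclideanSpace ℂ (Fin 4)) i = 0 := fun i => rfl
  have hx := hl.mul (pr 0)
  have hy := hl.mul (pr 1)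
  have hxy := hx.mul hy
  intro i
  fin_cases i
  · refine (hx.add (hh 1)).congr_fderiv ?_
    ext z
    simp [lam_zero]
  · have h1 := (hy.mul (((hasFDerivAt_const (1 : ℂ) (0 : EuclideanSpace ℂ (Fin 4))).sub hxy).sub
      (pr 2))).add (hh 2)
    refine h1.congr_fderiv ?_
    ext z
    simp [lam_zero]
  · refine (((pr 2).add (hxy.const_mul 2)).add (hh 3)).congr_fderiv ?_
    ext z
    simp [lam_zero]
  · refine (pr 3).congr_fderiv ?_
    ext z
    simp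

/-- the analytic disc -/
noncomputable def α (a w : ℂ) (ζ : ℂ) : EuclideanSpace ℂ (Fin 4) :=
  !₂[a * ζ + D.h w 1, D.h w 2, 2 + D.h w 3, w]

/-- its preimage -/
noncomputable def β (a w : ℂ) (ζ : ℂ) : EuclideanSpace ℂ (Fin 4) :=
  !₂[a * ζ / D.lam w, (a * ζ)⁻¹ / D.lam w, 0, w]

theorem α_diff (a w : ℂ) : Differentiable ℂ (D.α a w) := by
  rw [differentiable_euclidean]
  intro i
  fin_cases i
  · exact ((differentiable_id.const_mul a).add_const _)
  · exact differentiable_const _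
  · exact differentiable_const _
  · exact differentiable_const _

theorem β_cont (a w : ℂ) (ha : a ≠ 0) : ContinuousOn (D.β a w) (sphere 0 1) := by
  have h1 : ∀ ζ ∈ sphere (0 : ℂ) 1, ζ ≠ 0 := fun ζ hζ => by
    rw [mem_sphere_zero_iff_norm] at hζ
    rw [← norm_pos_iff, hζ]; exact one_pos
  intro ζ hζ
  apply ContinuousAt.continuousWithinAt
  have h2 : DifferentiableAt ℂ (D.β a w) ζ := by
    rw [differentiableAt_euclidean]
    intro i
    fin_cases i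
    · exact ((differentiableAt_id.const_mul a).div_const _)
    · exact (((differentiableAt_id.const_mul a).inv (mul_ne_zero ha (h1 ζ hζ))).div_const _)
    · exact differentiableAt_const _
    · exact differentiableAt_const _
  exact h2.continuousAt

theorem β_mem {a w : ℂ} (h : ‖a‖ ^ 2 + (‖a‖ ^ 2)⁻¹ < ‖D.lam w‖ ^ 2 * (1 - ‖w‖ ^ 2)) {ζ : ℂ}
    (hζ : ζ ∈ sphere (0 : ℂ) 1) : D.β a w ζ ∈ ball (0 : EuclideanSpace ℂ (Fin 4)) 1 := by
  rw [mem_sphere_zero_iff_norm] at hζ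
  rw [mem_ball_zero_iff, ← sq_lt_one_iff₀ (norm_nonneg _), EuclideanSpace.norm_sq_eq,
    Fin.sum_univ_four]
  have e0 : ‖D.β a w ζ 0‖ ^ 2 = ‖a‖ ^ 2 / ‖D.lam w‖ ^ 2 := by
    change ‖a * ζ / D.lam w‖ ^ 2 = _
    rw [norm_div, norm_mul, hζ, mul_one, div_pow]
  have e1 : ‖D.β a w ζ 1‖ ^ 2 = (‖a‖ ^ 2)⁻¹ / ‖D.lam w‖ ^ 2 := by
    change ‖(a * ζ)⁻¹ / D.lam w‖ ^ 2 = _
    rw [norm_div, norm_inv, norm_mul, hζ, mul_one, div_pow, inv_pow]
  have e2 : ‖D.β a w ζ 2‖ ^ 2 = 0 := by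
    change ‖(0 : ℂ)‖ ^ 2 = 0
    simp
  have e3 : ‖D.β a w ζ 3‖ ^ 2 = ‖w‖ ^ 2 := rfl
  rw [e0, e1, e2, e3, ← add_div]
  have hl : 0 < ‖D.lam w‖ ^ 2 := by
    have := norm_pos_iff.2 (D.lam_ne w)
    positivity
  have h1 : (‖a‖ ^ 2 + (‖a‖ ^ 2)⁻¹) / ‖D.lam w‖ ^ 2 < 1 - ‖w‖ ^ 2 := by
    rw [div_lt_iff₀ hl]
    linarith
  linarith

theorem f_β {a : ℂ} (w : ℂ) (ha : a ≠ 0) {ζ : ℂ} (hζ : ζ ∈ sphere (0 : ℂ) 1) :
    D.f (D.β a w ζ) = D.α a w ζ := by
  have hζ0 : ζ ≠ 0 := by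
    rw [mem_sphere_zero_iff_norm] at hζ
    rw [← norm_pos_iff, hζ]; exact one_pos
  have hl := D.lam_ne w
  have b0 : D.β a w ζ 0 = a * ζ / D.lam w := rfl
  have b1 : D.β a w ζ 1 = (a * ζ)⁻¹ / D.lam w := rfl
  have b2 : D.β a w ζ 2 = 0 := rfl
  have b3 : D.β a w ζ 3 = w := rfl
  have haz : a * ζ ≠ 0 := mul_ne_zero ha hζ0
  have c0 : D.lam w * (a * ζ / D.lam w) = a * ζ := by field_simp
  have c1 : D.lam w * ((a * ζ)⁻¹ / D.lam w) = (a * ζ)⁻¹ := by field_simp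
  ext i
  fin_cases i
  · change D.f (D.β a w ζ) 0 = a * ζ + D.h w 1
    rw [f0, b3, b0, c0]
  · change D.f (D.β a w ζ) 1 = D.h w 2
    rw [f1, b3, b0, b1, b2, c0, c1, mul_inv_cancel₀ haz]
    ring
  · change D.f (D.β a w ζ) 2 = 2 + D.h w 3
    rw [f2, b3, b0, b1, b2, c0, c1, mul_inv_cancel₀ haz]
    ring
  · exact b3

theorem centre_notMem (a w : ℂ) : ¬ ∃ x ∈ ball (0 : EuclideanSpace ℂ (Fin 4)) 1,
    D.f x = D.α a w 0 := by
  rintro ⟨x, hx, h⟩
  have e3 : x 3 = w := by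
    rw [← D.f3 x, h]; rfl
  have e0 : D.f x 0 = a * 0 + D.h w 1 := by rw [h]; rfl
  have e2 : D.f x 2 = 2 + D.h w 3 := by rw [h]; rfl
  rw [f0, e3, mul_zero] at e0
  have a0 : D.lam w * x 0 = 0 := add_right_cancel e0
  rw [f2, e3, a0, zero_mul, mul_zero, add_zero] at e2
  have a2 : x 2 = 2 := add_right_cancel e2
  have := coord_lt hx 2
  rw [a2, Complex.norm_ofNat] at this
  norm_num at this

theorem exists_notMem {a w : ℂ} (ha : a ≠ 0)
    (h : ‖a‖ ^ 2 + (‖a‖ ^ 2)⁻¹ < ‖D.lam w‖ ^ 2 * (1 - ‖w‖ ^ 2))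
    {Ψ : ℕ → EuclideanSpace ℂ (Fin 4) → EuclideanSpace ℂ (Fin 4)}
    (hΨ : ∀ k, Differentiable ℂ (Ψ k))
    (hΨi : ∀ k, Function.Injective (Ψ k)) {Ω : Set (EuclideanSpace ℂ (Fin 4))}
    (hΩ : ∀ k, range (Ψ k) = Ω) (hlim : TendstoLocallyUniformlyOn Ψ D.f atTop (ball 0 1)) :
    ∃ ζ ∈ closedBall (0 : ℂ) 1, D.α a w ζ ∉ Ω := by
  by_contra hcon
  push Not at hcon
  have := disc_lemma D.differentiableOn D.injOn hΨ hΨi hΩ hlim (D.α_diff a w) (D.β_cont a w ha)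
    (fun ζ hζ => D.β_mem h hζ) (fun ζ hζ => D.f_β w ha hζ) hcon 0 (mem_closedBall_self zero_le_one)
  exact D.centre_notMem a w this

end Data

theorem mv_diff {n : ℕ} (p : MvPolynomial (Fin n) ℂ) (γ : ℂ → EuclideanSpace ℂ (Fin n))
    (hγ : Differentiable ℂ γ) :
    Differentiable ℂ (fun ζ => MvPolynomial.eval (fun i => EuclideanSpace.proj i (γ ζ)) p) := by
  induction p using MvPolynomial.induction_on with
  | C a => simp
  | add p q hp hq =>
    simp only [map_add]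
    exact hp.add hq
  | mul_X p i hp =>
    simp only [map_mul, MvPolynomial.eval_X]
    exact hp.mul ((EuclideanSpace.proj i : EuclideanSpace ℂ (Fin n) →L[ℂ] ℂ).differentiable.comp hγ)

theorem main : ∃ f : EuclideanSpace ℂ (Fin 4) → EuclideanSpace ℂ (Fin 4),
    DifferentiableOn ℂ f (ball 0 1) ∧ InjOn f (ball 0 1) ∧ f 0 = 0 ∧
    fderiv ℂ f 0 = ContinuousLinearMap.id ℂ (EuclideanSpace ℂ (Fin 4)) ∧
    (¬ (∀ g : EuclideanSpace ℂ (Fin 4) → ℂ,
          DifferentiableOn ℂ g (f '' ball 0 1) →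
          ∀ K : Set (EuclideanSpace ℂ (Fin 4)), IsCompact K → K ⊆ f '' ball 0 1 →
          ∀ ε : ℝ, 0 < ε →
          ∃ p : MvPolynomial (Fin 4) ℂ, ∀ z ∈ K,
            ‖g z - MvPolynomial.eval (fun i => EuclideanSpace.proj i z) p‖ < ε)) ∧
    ¬ ∃ (Ω : Set (EuclideanSpace ℂ (Fin 4)))
        (Ψ : ℕ → EuclideanSpace ℂ (Fin 4) → EuclideanSpace ℂ (Fin 4)),
          (∀ k, Differentiable ℂ (Ψ k) ∧ Function.Injective (Ψ k) ∧ Ψ k 0 = 0 ∧
              fderiv ℂ (Ψ k) 0 = ContinuousLinearMap.id ℂ (EuclideanSpace ℂ (Fin 4)) ∧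
              range (Ψ k) = Ω) ∧
          TendstoLocallyUniformlyOn Ψ f atTop (ball 0 1) := by
  obtain ⟨h, hd, h0, hd0, hw⟩ := exists_wild
  set D : Data := ⟨h, hd, h0, hd0⟩ with hD
  have hlam : ∀ w, ‖D.lam w‖ = Real.exp (h w 0).re := fun w => Complex.norm_exp _
  refine ⟨D.f, D.differentiableOn, D.injOn, D.f_zero, D.fderiv_zero, ?_, ?_⟩
  · -- the image is not Runge
    intro hR
    obtain ⟨w, hw1, -, -, hw2⟩ := hw 1 norm_one 0 (1 / 2) (by norm_num)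
    have hgood : ‖(1 : ℂ)‖ ^ 2 + (‖(1 : ℂ)‖ ^ 2)⁻¹ < ‖D.lam w‖ ^ 2 * (1 - ‖w‖ ^ 2) := by
      rw [hlam]
      norm_num at hw2 ⊢
      exact hw2
    set v : EuclideanSpace ℂ (Fin 4) → EuclideanSpace ℂ (Fin 4) :=
      Function.invFunOn D.f (ball 0 1) with hv
    have hv1 : ∀ y ∈ D.f '' ball 0 1, v y ∈ ball (0 : EuclideanSpace ℂ (Fin 4)) 1 := fun y hy =>
      Function.invFunOn_mem hy
    have hv2 : ∀ y ∈ D.f '' ball 0 1, D.f (v y) = y := fun y hy => Function.invFunOn_eq hy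
    have hvd := inverse_diff isOpen_ball D.differentiableOn D.injOn hv1 hv2
    have hgd : DifferentiableOn ℂ (fun y => v y 1) (D.f '' ball 0 1) :=
      (Data.proj_diff 1).comp_differentiableOn hvd
    set K : Set (EuclideanSpace ℂ (Fin 4)) := D.α 1 w '' sphere (0 : ℂ) 1 with hK
    have hKc : IsCompact K := (isCompact_sphere (0 : ℂ) 1).image (D.α_diff 1 w).continuous
    have hKs : K ⊆ D.f '' ball 0 1 := by
      rintro _ ⟨ζ, hζ, rfl⟩
      exact ⟨D.β 1 w ζ, D.β_mem hgood hζ, D.f_β w one_ne_zero hζ⟩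
    have hl : (D.lam w)⁻¹ ≠ 0 := inv_ne_zero (D.lam_ne w)
    obtain ⟨p, hp⟩ := hR _ hgd K hKc hKs (‖(D.lam w)⁻¹‖ / 2) (by
      have := norm_pos_iff.2 hl
      positivity)
    set q : ℂ → ℂ := fun ζ => MvPolynomial.eval (fun i => EuclideanSpace.proj i (D.α 1 w ζ)) p with hq
    have hqd : Differentiable ℂ q := mv_diff p _ (D.α_diff 1 w)
    have hbd : ∀ ζ ∈ frontier (ball (0 : ℂ) 1), ‖(D.lam w)⁻¹ - ζ * q ζ‖ ≤ ‖(D.lam w)⁻¹‖ / 2 := by
      intro ζ hζ
      rw [frontier_ball _ one_ne_zero] at hζ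
      have hn : ‖ζ‖ = 1 := mem_sphere_zero_iff_norm.1 hζ
      have hζ0 : ζ ≠ 0 := by
        rw [← norm_pos_iff, hn]; exact one_pos
      have h1 := hp (D.α 1 w ζ) ⟨ζ, hζ, rfl⟩
      have h2 : v (D.α 1 w ζ) = D.β 1 w ζ := by
        apply D.injOn (hv1 _ (hKs ⟨ζ, hζ, rfl⟩)) (D.β_mem hgood hζ)
        rw [hv2 _ (hKs ⟨ζ, hζ, rfl⟩), D.f_β w one_ne_zero hζ]
      have h3 : v (D.α 1 w ζ) 1 = ζ⁻¹ * (D.lam w)⁻¹ := by
        rw [h2]
        change (1 * ζ)⁻¹ / D.lam w = _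
        rw [one_mul, div_eq_mul_inv]
      simp only [h3] at h1
      have h4 : (D.lam w)⁻¹ - ζ * q ζ = ζ * (ζ⁻¹ * (D.lam w)⁻¹ - q ζ) := by
        field_simp
      rw [h4, norm_mul, hn, one_mul]
      exact h1.le
    have h5 := Complex.norm_le_of_forall_mem_frontier_norm_le (isBounded_ball (x := (0 : ℂ)) (r := 1))
      (f := fun ζ => (D.lam w)⁻¹ - ζ * q ζ)
      (((differentiable_const _).sub (differentiable_id.mul hqd)).diffContOnCl) hbd
      (subset_closure (mem_ball_self one_pos))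
    simp only [zero_mul, sub_zero] at h5
    have := norm_pos_iff.2 hl
    linarith
  · rintro ⟨Ω, Ψ, hΨ, hlim⟩
    have hΨd : ∀ k, Differentiable ℂ (Ψ k) := fun k => (hΨ k).1
    have hΨi : ∀ k, Function.Injective (Ψ k) := fun k => (hΨ k).2.1
    have hΩ : ∀ k, range (Ψ k) = Ω := fun k => (hΨ k).2.2.2.2
    have hΩo : IsOpen Ω := by
      have := image_isOpen isOpen_univ (hΨd 0).differentiableOn (hΨi 0).injOn
      rwa [image_univ, hΩ 0] at this
    -- the points with last coordinate on the unit circle are not in `Ω`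
    have key : ∀ Z : EuclideanSpace ℂ (Fin 4), ‖Z 3‖ = 1 → Z ∉ Ω := by
      intro Z hZ hZΩ
      obtain ⟨e, he, hball⟩ := Metric.isOpen_iff.1 hΩo Z hZΩ
      set a : ℝ := e / 8 with ha
      have ha0 : 0 < a := by positivity
      set ε : ℝ := min (e / 8) (1 / (a ^ 2 + (a ^ 2)⁻¹)) with hε
      have hε0 : 0 < ε := lt_min (by positivity) (by positivity)
      have hε1 : ε ≤ e / 8 := min_le_left _ _
      obtain ⟨w, hw1, hw2, hw3, hw4⟩ := hw (Z 3) hZ ![Z 0, Z 1, Z 2 - 2] ε hε0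
      have hgood : ‖(a : ℂ)‖ ^ 2 + (‖(a : ℂ)‖ ^ 2)⁻¹ < ‖D.lam w‖ ^ 2 * (1 - ‖w‖ ^ 2) := by
        rw [hlam, Complex.norm_real, Real.norm_of_nonneg ha0.le]
        refine lt_of_le_of_lt ?_ hw4
        rw [le_div_iff₀ hε0]
        have h1 : ε ≤ 1 / (a ^ 2 + (a ^ 2)⁻¹) := min_le_right _ _
        rw [le_div_iff₀ (by positivity)] at h1
        linarith
      obtain ⟨ζ, hζ, hζΩ⟩ := D.exists_notMem (a := (a : ℂ)) (by exact_mod_cast ha0.ne') hgood hΨd
        hΨi hΩ hlim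
      apply hζΩ
      apply hball
      rw [mem_ball, EuclideanSpace.dist_eq, Real.sqrt_lt' he, Fin.sum_univ_four]
      have hζn : ‖ζ‖ ≤ 1 := mem_closedBall_zero_iff.1 hζ
      have d0 : dist (D.α (a : ℂ) w ζ 0) (Z 0) ≤ e / 4 := by
        rw [dist_eq_norm]
        change ‖(a : ℂ) * ζ + h w 1 - Z 0‖ ≤ e / 4
        have h1 : ‖h w 1 - Z 0‖ < ε := hw3 0
        have h2 : ‖(a : ℂ) * ζ‖ ≤ a := by
          rw [norm_mul, Complex.norm_real, Real.norm_of_nonneg ha0.le]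
          nlinarith
        calc ‖(a : ℂ) * ζ + h w 1 - Z 0‖ = ‖(a : ℂ) * ζ + (h w 1 - Z 0)‖ := by congr 1; ring
          _ ≤ ‖(a : ℂ) * ζ‖ + ‖h w 1 - Z 0‖ := norm_add_le _ _
          _ ≤ e / 4 := by linarith
      have d1 : dist (D.α (a : ℂ) w ζ 1) (Z 1) ≤ e / 4 := by
        rw [dist_eq_norm]
        have h1 : ‖h w 2 - Z 1‖ < ε := hw3 1
        exact h1.le.trans (by linarith)
      have d2 : dist (D.α (a : ℂ) w ζ 2) (Z 2) ≤ e / 4 := by
        rw [dist_eq_norm]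
        have h1 : ‖h w 3 - (Z 2 - 2)‖ < ε := hw3 2
        have h2 : D.α (a : ℂ) w ζ 2 - Z 2 = h w 3 - (Z 2 - 2) := by
          change 2 + h w 3 - Z 2 = _
          ring
        rw [h2]
        exact h1.le.trans (by linarith)
      have d3 : dist (D.α (a : ℂ) w ζ 3) (Z 3) ≤ e / 4 := by
        rw [dist_eq_norm]
        exact hw2.le.trans (by linarith)
      have s0 := pow_le_pow_left₀ dist_nonneg d0 2
      have s1 := pow_le_pow_left₀ dist_nonneg d1 2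
      have s2 := pow_le_pow_left₀ dist_nonneg d2 2
      have s3 := pow_le_pow_left₀ dist_nonneg d3 2
      nlinarith
    -- hence the last coordinate is bounded on `Ω`
    have hne : ∀ z, ‖Ψ 0 z 3‖ ≠ 1 := fun z hz => key (Ψ 0 z) hz (by rw [← hΩ 0]; exact mem_range_self z)
    have hcont : Continuous fun z => ‖Ψ 0 z 3‖ :=
      ((Data.proj_diff 3).comp (hΨd 0)).continuous.norm
    have hlt : ∀ z, ‖Ψ 0 z 3‖ < 1 := by
      intro z
      by_contra hz
      push Not at hz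
      have h00 : ‖Ψ 0 0 3‖ = 0 := by
        rw [(hΨ 0).2.2.1]; simp
      have h1 := isPreconnected_univ.intermediate_value (f := fun z => ‖Ψ 0 z 3‖) (mem_univ 0)
        (mem_univ z) hcont.continuousOn
      obtain ⟨y, -, hy⟩ := h1 (show (1 : ℝ) ∈ Icc ‖Ψ 0 0 3‖ ‖Ψ 0 z 3‖ from ⟨by rw [h00]; norm_num, hz⟩)
      exact hne y hy
    have hconst : ∀ z, Ψ 0 z 3 = 0 := by
      intro z
      have hb : Bornology.IsBounded (range fun z => Ψ 0 z 3) := by
        rw [isBounded_iff_forall_norm_le]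
        refine ⟨1, ?_⟩
        rintro _ ⟨y, rfl⟩
        exact (hlt y).le
      have h1 := ((Data.proj_diff 3).comp (hΨd 0)).apply_eq_apply_of_bounded hb z 0
      have h2 : Ψ 0 z 3 = Ψ 0 0 3 := h1
      rw [h2, (hΨ 0).2.2.1]; rfl
    have hfd : HasFDerivAt (Ψ 0) (ContinuousLinearMap.id ℂ (EuclideanSpace ℂ (Fin 4))) 0 := by
      have := ((hΨd 0) 0).hasFDerivAt
      rwa [(hΨ 0).2.2.2.1] at this
    have h3 := (Data.hasFDerivAt_eucl.1 hfd) 3
    have h4 : HasFDerivAt (fun z => Ψ 0 z 3) (0 : EuclideanSpace ℂ (Fin 4) →L[ℂ] ℂ) 0 := by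
      have : (fun z => Ψ 0 z 3) = fun _ => (0 : ℂ) := funext hconst
      rw [this]
      exact hasFDerivAt_const _ _
    have h5 := h3.unique h4
    have h6 := congrArg (fun L : EuclideanSpace ℂ (Fin 4) →L[ℂ] ℂ => L (EuclideanSpace.single 3 1)) h5
    simp at h6

end Pool.Agent.W2helper19
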