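import Mathlib

/-!
# Basic facts on `z ↦ (z+p)/(1+pz)` and degree two Blaschke products
-/

set_option autoImplicit false

open Complex Filter Topology MeasureTheory Set Metric

namespace Pool.Agent.W2helper19.DW

/-- The disc automorphism `z ↦ (z + p) / (1 + p z)`, `p` real. -/
noncomputable def mob (p : ℝ) (z : ℂ) : ℂ := (z + p) / (1 + p * z)

/-- The degree two Blaschke product `z ↦ z (z + r) / (1 + r z)`, `r` real. -/
noncomputable def bl (r : ℝ) (z : ℂ) : ℂ := z * mob r z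

lemma norm_pz_lt {p : ℝ} (hp : |p| < 1) {z : ℂ} (hz : ‖z‖ ≤ 1) : ‖(p : ℂ) * z‖ < 1 := by
  rw [norm_mul, Complex.norm_real, Real.norm_eq_abs]
  calc |p| * ‖z‖ ≤ |p| * 1 := by gcongr
    _ < 1 := by linarith

lemma den_ne {p : ℝ} (hp : |p| < 1) {z : ℂ} (hz : ‖z‖ ≤ 1) : 1 + (p : ℂ) * z ≠ 0 := by
  intro h
  have h1 := norm_pz_lt hp hz
  have h2 : (p : ℂ) * z = -1 := by linear_combination h
  rw [h2] at h1
  simp at h1

lemma den_ne' {p : ℝ} (hp : |p| < 1) {z : ℂ} (hz : ‖z‖ ≤ 1) : 1 + z * (p : ℂ) ≠ 0 := by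
  rw [mul_comm z]
  exact den_ne hp hz

lemma normSq_identity (p : ℝ) (z : ℂ) :
    Complex.normSq (1 + p * z) - Complex.normSq (z + p) = (1 - p ^ 2) * (1 - Complex.normSq z) := by
  simp only [Complex.normSq_apply, Complex.add_re, Complex.add_im, Complex.mul_re, Complex.mul_im,
    Complex.one_re, Complex.one_im, Complex.ofReal_re, Complex.ofReal_im]
  ring

lemma norm_mob_sq {p : ℝ} (hp : |p| < 1) {z : ℂ} (hz : ‖z‖ ≤ 1) :
    ‖mob p z‖ ^ 2 = 1 - (1 - p ^ 2) * (1 - ‖z‖ ^ 2) / ‖1 + (p : ℂ) * z‖ ^ 2 := by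
  have h := normSq_identity p z
  have hd := den_ne hp hz
  rw [Complex.normSq_eq_norm_sq, Complex.normSq_eq_norm_sq, Complex.normSq_eq_norm_sq] at h
  have hd' : ‖1 + (p : ℂ) * z‖ ≠ 0 := by simpa using hd
  rw [mob, norm_div, div_pow]
  have hd2 : ‖1 + (p : ℂ) * z‖ ^ 2 ≠ 0 := pow_ne_zero 2 hd'
  generalize ‖1 + (p : ℂ) * z‖ ^ 2 = A at *
  field_simp
  linarith

lemma norm_mob_lt {p : ℝ} (hp : |p| < 1) {z : ℂ} (hz : ‖z‖ < 1) : ‖mob p z‖ < 1 := by
  have h := norm_mob_sq hp hz.le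
  have hd := den_ne hp hz.le
  have hd' : 0 < ‖1 + (p : ℂ) * z‖ := by simpa using hd
  have h1 : 0 < 1 - p ^ 2 := by
    have := abs_lt.1 hp
    nlinarith
  have h2 : 0 < 1 - ‖z‖ ^ 2 := by nlinarith [norm_nonneg z]
  have h3 : ‖mob p z‖ ^ 2 < 1 := by
    rw [h]
    have : 0 < (1 - p ^ 2) * (1 - ‖z‖ ^ 2) / ‖1 + (p : ℂ) * z‖ ^ 2 := by positivity
    linarith
  nlinarith [norm_nonneg (mob p z)]

lemma norm_mob_one {p : ℝ} (hp : |p| < 1) {z : ℂ} (hz : ‖z‖ = 1) : ‖mob p z‖ = 1 := by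
  have h := norm_mob_sq hp hz.le
  rw [hz] at h
  have h3 : ‖mob p z‖ ^ 2 = 1 := by rw [h]; simp
  nlinarith [norm_nonneg (mob p z)]

lemma norm_mob_le {p : ℝ} (hp : |p| < 1) {z : ℂ} (hz : ‖z‖ ≤ 1) : ‖mob p z‖ ≤ 1 := by
  rcases hz.lt_or_eq with h | h
  · exact (norm_mob_lt hp h).le
  · exact (norm_mob_one hp h).le

lemma mob_neg_mob {p : ℝ} (hp : |p| < 1) {z : ℂ} (hz : ‖z‖ ≤ 1) : mob (-p) (mob p z) = z := by
  have hd := den_ne hp hz
  have hd2 := den_ne' hp hz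
  have h1 : (1 - (p : ℂ) ^ 2) ≠ 0 := by
    intro h
    have : (1 - p ^ 2 : ℝ) = 0 := by exact_mod_cast h
    have := abs_lt.1 hp
    nlinarith
  have h2 : 1 + ((-p : ℝ) : ℂ) * mob p z = (1 - (p : ℂ) ^ 2) / (1 + p * z) := by
    rw [mob]
    push_cast
    field_simp
    ring
  have h3 : mob p z + ((-p : ℝ) : ℂ) = z * (1 - (p : ℂ) ^ 2) / (1 + p * z) := by
    rw [mob]
    push_cast
    field_simp
    ring
  rw [mob, h2, h3]
  field_simp

lemma mob_zero (z : ℂ) : mob 0 z = z := by simp [mob]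

lemma mob_at_zero (p : ℝ) : mob p 0 = p := by simp [mob]

/-- Functions continuous on the closed disc, holomorphic in the disc, mapping the disc into itself
and the circle into itself. -/
structure Good (h : ℂ → ℂ) : Prop where
  cont : ContinuousOn h (closedBall 0 1)
  diff : DifferentiableOn ℂ h (ball 0 1)
  maps : ∀ z, ‖z‖ < 1 → ‖h z‖ < 1
  bd : ∀ z, ‖z‖ = 1 → ‖h z‖ = 1

lemma Good.le {h : ℂ → ℂ} (H : Good h) {z : ℂ} (hz : ‖z‖ ≤ 1) : ‖h z‖ ≤ 1 := by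
  rcases hz.lt_or_eq with h' | h'
  · exact (H.maps z h').le
  · exact (H.bd z h').le

lemma Good.comp {g h : ℂ → ℂ} (G : Good g) (H : Good h) : Good (g ∘ h) where
  cont := G.cont.comp H.cont (fun z hz => by
    simp only [mem_closedBall, dist_zero_right] at hz ⊢
    exact H.le hz)
  diff := G.diff.comp H.diff (fun z hz => by
    simp only [mem_ball, dist_zero_right] at hz ⊢
    exact H.maps z hz)
  maps z hz := G.maps _ (H.maps z hz)
  bd z hz := G.bd _ (H.bd z hz)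

lemma good_id : Good id where
  cont := continuousOn_id
  diff := differentiableOn_id
  maps z hz := hz
  bd z hz := hz

lemma good_mob {p : ℝ} (hp : |p| < 1) : Good (mob p) where
  cont := by
    apply ContinuousOn.div (by fun_prop) (by fun_prop)
    intro z hz
    exact den_ne hp (by simpa using hz)
  diff := by
    apply DifferentiableOn.div (by fun_prop) (by fun_prop)
    intro z hz
    exact den_ne hp (by simpa using (le_of_lt (by simpa using hz : ‖z‖ < 1)))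
  maps z hz := norm_mob_lt hp hz
  bd z hz := norm_mob_one hp hz

lemma good_bl {r : ℝ} (hr : |r| < 1) : Good (bl r) where
  cont := continuousOn_id.mul (good_mob hr).cont
  diff := differentiableOn_id.mul (good_mob hr).diff
  maps z hz := by
    rw [bl, norm_mul]
    have := norm_mob_lt hr hz
    nlinarith [norm_nonneg z, norm_nonneg (mob r z)]
  bd z hz := by rw [bl, norm_mul, hz, norm_mob_one hr hz, mul_one]

lemma norm_bl_le {r : ℝ} (hr : |r| < 1) {z : ℂ} (hz : ‖z‖ ≤ 1) : ‖bl r z‖ ≤ ‖z‖ := by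
  rw [bl, norm_mul]
  have := norm_mob_le hr hz
  nlinarith [norm_nonneg z, norm_nonneg (mob r z)]

lemma bl_zero (r : ℝ) : bl r 0 = 0 := by simp [bl]

lemma one_add_mul_lower {p : ℝ} (hp0 : 0 ≤ p) (hp : p < 1) {w : ℂ} (hw : ‖w‖ = 1) :
    ‖1 + w‖ - (1 - p) ≤ ‖1 + (p : ℂ) * w‖ := by
  have h1 : (1 + w) = (1 + (p : ℂ) * w) + ((1 - p : ℝ) : ℂ) * w := by push_cast; ring
  have h2 : ‖1 + w‖ ≤ ‖1 + (p : ℂ) * w‖ + ‖((1 - p : ℝ) : ℂ) * w‖ := by
    calc ‖1 + w‖ = ‖(1 + (p : ℂ) * w) + ((1 - p : ℝ) : ℂ) * w‖ := by rw [← h1]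
      _ ≤ _ := norm_add_le _ _
  have h3 : ‖((1 - p : ℝ) : ℂ) * w‖ = 1 - p := by
    rw [norm_mul, hw, Complex.norm_real, Real.norm_eq_abs, abs_of_nonneg (by linarith), mul_one]
  linarith

/-- `|M_p(w) - 1| ≤ 2 (1-p) / (|1+w| - (1-p))` on the circle. -/
lemma mob_sub_one {p : ℝ} (hp0 : 0 ≤ p) (hp : p < 1) {w : ℂ} (hw : ‖w‖ = 1)
    (h : 2 * (1 - p) ≤ ‖1 + w‖) : ‖mob p w - 1‖ * ‖1 + w‖ ≤ 4 * (1 - p) := by
  have hpa : |p| < 1 := by rw [abs_of_nonneg hp0]; exact hp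
  have hd := den_ne hpa hw.le
  have hd2 := den_ne' hpa hw.le
  have h1 : mob p w - 1 = ((1 - p : ℝ) : ℂ) * (w - 1) / (1 + p * w) := by
    rw [mob]; push_cast; field_simp; ring
  have h2 := one_add_mul_lower hp0 hp hw
  have h3 : ‖w - 1‖ ≤ 2 := by
    calc ‖w - 1‖ ≤ ‖w‖ + ‖(1 : ℂ)‖ := norm_sub_le _ _
      _ = 2 := by rw [hw, norm_one]; norm_num
  have hdpos : 0 < ‖1 + (p : ℂ) * w‖ := by simpa using hd
  rw [h1, norm_div, norm_mul, Complex.norm_real, Real.norm_eq_abs, abs_of_nonneg (by linarith)]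
  rw [div_mul_eq_mul_div, div_le_iff₀ hdpos]
  have h4 : ‖1 + w‖ ≤ 2 * ‖1 + (p : ℂ) * w‖ := by linarith
  have h5 : 0 ≤ 1 - p := by linarith
  calc (1 - p) * ‖w - 1‖ * ‖1 + w‖ ≤ (1 - p) * 2 * (2 * ‖1 + (p : ℂ) * w‖) := by gcongr
    _ = 4 * (1 - p) * ‖1 + (p : ℂ) * w‖ := by ring

/-- `|b_r(w) - w|` on the circle. -/
lemma bl_sub {r : ℝ} (hr0 : 0 ≤ r) (hr : r < 1) {w : ℂ} (hw : ‖w‖ = 1)
    (h : 2 * (1 - r) ≤ ‖1 + w‖) : ‖bl r w - w‖ * ‖1 + w‖ ≤ 4 * (1 - r) := by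
  have h1 : bl r w - w = w * (mob r w - 1) := by rw [bl]; ring
  rw [h1, norm_mul, hw, one_mul]
  exact mob_sub_one hr0 hr hw h

/-- pseudo-hyperbolic distance -/
noncomputable def pseudo (z w : ℂ) : ℝ := ‖(z - w) / (1 - (starRingEnd ℂ) w * z)‖

lemma pseudo_den_ne {z w : ℂ} (hz : ‖z‖ < 1) (hw : ‖w‖ < 1) :
    1 - (starRingEnd ℂ) w * z ≠ 0 := by
  intro h
  have h1 : (starRingEnd ℂ) w * z = 1 := by linear_combination -h
  have h2 : ‖(starRingEnd ℂ) w * z‖ < 1 := by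
    rw [norm_mul, RCLike.norm_conj]
    nlinarith [norm_nonneg z, norm_nonneg w]
  rw [h1, norm_one] at h2
  exact lt_irrefl _ h2

lemma pseudo_mob {p : ℝ} (hp : |p| < 1) {z w : ℂ} (hz : ‖z‖ < 1) (hw : ‖w‖ < 1) :
    pseudo (mob p z) (mob p w) = pseudo z w := by
  have hd := den_ne hp hz.le
  have hd' := den_ne hp hw.le
  have hcw : ‖(starRingEnd ℂ) w‖ ≤ 1 := by rw [RCLike.norm_conj]; exact hw.le
  have hd'' := den_ne hp hcw
  have hdz := den_ne' hp hz.le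
  have hdw := den_ne' hp hw.le
  have hdc := den_ne' hp hcw
  have h0 := pseudo_den_ne hz hw
  have h0' : 1 - z * (starRingEnd ℂ) w ≠ 0 := by rwa [mul_comm z]
  have h1 : (1 - (p : ℂ) ^ 2) ≠ 0 := by
    intro h
    have : (1 - p ^ 2 : ℝ) = 0 := by exact_mod_cast h
    have := abs_lt.1 hp
    nlinarith
  have e1 : mob p z - mob p w = (z - w) * (1 - (p : ℂ) ^ 2) / ((1 + p * z) * (1 + p * w)) := by
    rw [mob, mob]; field_simp; ring
  have e2 : 1 - (starRingEnd ℂ) (mob p w) * mob p z =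
      (1 - (starRingEnd ℂ) w * z) * (1 - (p : ℂ) ^ 2) /
        ((1 + p * (starRingEnd ℂ) w) * (1 + p * z)) := by
    have : (starRingEnd ℂ) (mob p w) = ((starRingEnd ℂ) w + p) / (1 + p * (starRingEnd ℂ) w) := by
      rw [mob]; simp
    rw [this, mob]; field_simp; ring
  have e3 : (mob p z - mob p w) / (1 - (starRingEnd ℂ) (mob p w) * mob p z) =
      ((z - w) / (1 - (starRingEnd ℂ) w * z)) *
        ((1 + p * (starRingEnd ℂ) w) / (1 + p * w)) := by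
    rw [e1, e2]; field_simp
  have e4 : ‖(1 + (p : ℂ) * (starRingEnd ℂ) w) / (1 + p * w)‖ = 1 := by
    have : (1 + (p : ℂ) * (starRingEnd ℂ) w) = (starRingEnd ℂ) (1 + p * w) := by simp
    rw [this, norm_div, RCLike.norm_conj]
    exact div_self (by simpa using hd')
  rw [pseudo, pseudo, e3, norm_mul, e4, mul_one]

end Pool.Agent.W2helper19.DW
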