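import Pool.Agent.W2helper19.DWMeasure

/-!
# The non-autonomous dynamical system
-/

set_option autoImplicit false

open Complex Filter Topology MeasureTheory Set Metric

namespace Pool.Agent.W2helper19.DW

variable (K : ℕ → ℕ)

/-- `u n = 2 ^ (-K n)` -/
noncomputable def u (n : ℕ) : ℝ := (1 / 2 : ℝ) ^ (K n)

noncomputable def pp (n : ℕ) : ℝ := 1 - u K n ^ 2

noncomputable def rr (n : ℕ) : ℝ :=
  if K n < K (n + 1) then 0 else 1 - u K n ^ 2 * (1 / 2 : ℝ) ^ n / 8

/-- the composition fixing the origin -/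
noncomputable def BB : ℕ → ℂ → ℂ
  | 0 => id
  | n + 1 => bl (rr K n) ∘ BB n

lemma u_pos (n : ℕ) : 0 < u K n := by unfold u; positivity

lemma u_le_one (n : ℕ) : u K n ≤ 1 := by
  unfold u
  apply pow_le_one₀ (by norm_num) (by norm_num)

lemma pp_nonneg (n : ℕ) : 0 ≤ pp K n := by
  have h1 := u_pos K n
  have h2 := u_le_one K n
  unfold pp
  nlinarith

lemma pp_lt_one (n : ℕ) : pp K n < 1 := by
  have h1 := u_pos K n
  unfold pp
  have : 0 < u K n ^ 2 := by positivity
  linarith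

lemma pp_abs (n : ℕ) : |pp K n| < 1 := by
  rw [abs_of_nonneg (pp_nonneg K n)]
  exact pp_lt_one K n

lemma pp_abs' (n : ℕ) : |-pp K n| < 1 := by
  rw [abs_neg]
  exact pp_abs K n

lemma rr_nonneg (n : ℕ) : 0 ≤ rr K n := by
  have h1 := u_pos K n
  have h2 := u_le_one K n
  have h3 : (1 / 2 : ℝ) ^ n ≤ 1 := pow_le_one₀ (by norm_num) (by norm_num)
  have h4 : (0 : ℝ) < (1 / 2 : ℝ) ^ n := by positivity
  unfold rr
  split_ifs
  · exact le_refl _
  · have : u K n ^ 2 * (1 / 2 : ℝ) ^ n ≤ 1 := by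
      calc u K n ^ 2 * (1 / 2 : ℝ) ^ n ≤ 1 ^ 2 * 1 := by gcongr
        _ = 1 := by norm_num
    linarith

lemma rr_lt_one (n : ℕ) : rr K n < 1 := by
  have h1 := u_pos K n
  unfold rr
  split_ifs
  · norm_num
  · have : 0 < u K n ^ 2 * (1 / 2 : ℝ) ^ n / 8 := by positivity
    linarith

lemma rr_abs (n : ℕ) : |rr K n| < 1 := by
  rw [abs_of_nonneg (rr_nonneg K n)]
  exact rr_lt_one K n

lemma good_BB (n : ℕ) : Good (BB K n) := by
  induction n with
  | zero => exact good_id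
  | succ n ih => exact (good_bl (rr_abs K n)).comp ih

lemma BB_zero (n : ℕ) : BB K n 0 = 0 := by
  induction n with
  | zero => rfl
  | succ n ih => simp [BB, ih, bl_zero]

lemma BB_anti {z : ℂ} (hz : ‖z‖ ≤ 1) : Antitone (fun n => ‖BB K n z‖) := by
  apply antitone_nat_of_succ_le
  intro n
  exact norm_bl_le (rr_abs K n) ((good_BB K n).le hz)

variable {K}

lemma frequently_jump (hK : Tendsto K atTop atTop) : ∃ᶠ n in atTop, K n < K (n + 1) := by
  intro h
  rw [eventually_atTop] at h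
  obtain ⟨N, hN⟩ := h
  have h1 : ∀ n, N ≤ n → K n ≤ K N := by
    intro n hn
    induction n, hn using Nat.le_induction with
    | base => exact le_refl _
    | succ n hn ih => exact (not_lt.1 (hN n hn)).trans ih
  obtain ⟨n, hn1, hn2⟩ := ((hK.eventually_gt_atTop (K N)).and (eventually_ge_atTop N)).exists
  exact absurd (h1 n hn2) (not_le.2 hn1)

lemma BB_tendsto (hK : Tendsto K atTop atTop) {z : ℂ} (hz : ‖z‖ < 1) :
    Tendsto (fun n => BB K n z) atTop (𝓝 0) := by
  rw [tendsto_zero_iff_norm_tendsto_zero]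
  have hbdd : BddBelow (range fun n => ‖BB K n z‖) := ⟨0, by
    rintro _ ⟨n, rfl⟩
    exact norm_nonneg _⟩
  have hlim := tendsto_atTop_ciInf (BB_anti K hz.le) hbdd
  set L := ⨅ n, ‖BB K n z‖ with hL
  have hlim1 : Tendsto (fun n => ‖BB K (n + 1) z‖) atTop (𝓝 L) :=
    hlim.comp (tendsto_add_atTop_nat 1)
  have hlim2 : Tendsto (fun n => ‖BB K (n + 1) z‖ - ‖BB K n z‖ ^ 2) atTop (𝓝 (L - L ^ 2)) :=
    hlim1.sub (hlim.pow 2)
  have hfreq : ∃ᶠ n in atTop, ‖BB K (n + 1) z‖ - ‖BB K n z‖ ^ 2 ∈ ({0} : Set ℝ) := by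
    apply (frequently_jump hK).mono
    intro n hn
    have : BB K (n + 1) z = BB K n z * BB K n z := by
      simp [BB, rr, hn, bl, mob_zero]
    rw [this, norm_mul]
    simp [sq]
  have hmem := isClosed_singleton.mem_of_frequently_of_tendsto hfreq hlim2
  have h0 : L - L ^ 2 = 0 := by simpa using hmem
  have hL1 : L < 1 := by
    have : L ≤ ‖BB K 0 z‖ := ciInf_le hbdd 0
    exact this.trans_lt (by simpa [BB] using hz)
  have : L = 0 := by
    have : L * (1 - L) = 0 := by linarith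
    rcases mul_eq_zero.1 this with h | h
    · exact h
    · linarith
  rw [this] at hlim
  exact hlim

lemma u_tendsto (hK : Tendsto K atTop atTop) : Tendsto (u K) atTop (𝓝 0) :=
  (tendsto_pow_atTop_nhds_zero_of_lt_one (by norm_num) (by norm_num)).comp hK

lemma pp_tendsto (hK : Tendsto K atTop atTop) : Tendsto (pp K) atTop (𝓝 1) := by
  have h := ((u_tendsto hK).pow 2).const_sub 1
  have h0 : (1 : ℝ) - 0 ^ 2 = 1 := by norm_num
  rw [h0] at h
  exact h

/-- the exceptional sets -/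
def bad (K : ℕ → ℕ) (n : ℕ) : Set ℝ :=
  {θ | K n < K (n + 1) ∧ ‖1 + BB K (n + 1) (pt θ)‖ < 2 * u K (n + 1)}

lemma measure_bad (n : ℕ) (hm : Monotone K) :
    (volume.restrict (Ioc (0 : ℝ) (2 * Real.pi))) (bad K n) ≤
      ENNReal.ofReal (16 * Real.pi * (u K n - u K (n + 1))) := by
  by_cases h : K n < K (n + 1)
  · have h1 : bad K n = {θ | ‖1 + BB K (n + 1) (pt θ)‖ < 2 * u K (n + 1)} := by
      ext θ
      simp [bad, h]
    have h2 : 2 * u K (n + 1) ≤ u K n := by
      unfold u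
      have h3 : (1 / 2 : ℝ) ^ K (n + 1) ≤ (1 / 2 : ℝ) ^ (K n + 1) :=
        pow_le_pow_of_le_one (by norm_num) (by norm_num) h
      rw [pow_succ] at h3
      linarith
    rw [h1]
    refine (measure_bound (good_BB K (n + 1)) (BB_zero K (n + 1))
      (mul_pos two_pos (u_pos K (n + 1))) (h2.trans (u_le_one K n))).trans ?_
    apply ENNReal.ofReal_le_ofReal
    have : 0 < Real.pi := Real.pi_pos
    nlinarith
  · have h1 : bad K n = ∅ := by
      ext θ
      simp [bad, h]
    rw [h1, measure_empty]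
    exact bot_le

lemma u_anti (hm : Monotone K) : Antitone (u K) := by
  intro a b hab
  unfold u
  exact pow_le_pow_of_le_one (by norm_num) (by norm_num) (hm hab)

lemma summable_diff (hm : Monotone K) : Summable (fun n => 16 * Real.pi * (u K n - u K (n + 1))) := by
  apply Summable.mul_left
  apply summable_of_sum_range_le (c := 1)
  · intro n
    exact sub_nonneg.2 (u_anti hm (Nat.le_succ n))
  · intro n
    rw [Finset.sum_range_sub']
    have := u_pos K n
    have := u_le_one K 0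
    linarith

lemma ae_not_bad (hm : Monotone K) :
    ∀ᵐ θ ∂(volume.restrict (Ioc (0 : ℝ) (2 * Real.pi))), ∀ᶠ n in atTop, θ ∉ bad K n := by
  apply ae_eventually_notMem
  apply ne_top_of_le_ne_top _ (ENNReal.tsum_le_tsum (fun n => measure_bad n hm))
  rw [← ENNReal.ofReal_tsum_of_nonneg _ (summable_diff hm)]
  · exact ENNReal.ofReal_ne_top
  · intro n
    have := sub_nonneg.2 (u_anti hm (Nat.le_succ n))
    have : 0 < Real.pi := Real.pi_pos
    positivity

lemma lower_bound (hK : Tendsto K atTop atTop) (hm : Monotone K) {θ : ℝ}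
    (hθ : ∀ᶠ n in atTop, θ ∉ bad K n) :
    ∀ᶠ n in atTop, u K n ≤ ‖1 + BB K n (pt θ)‖ := by
  rw [eventually_atTop] at hθ
  obtain ⟨N, hN⟩ := hθ
  have hgood : ∀ n, N ≤ n → K n < K (n + 1) → 2 * u K (n + 1) ≤ ‖1 + BB K (n + 1) (pt θ)‖ := by
    intro n hn hj
    by_contra hcon
    exact hN n hn ⟨hj, not_le.1 hcon⟩
  obtain ⟨n₁, hn₁N, hn₁⟩ := (frequently_atTop.1 (frequently_jump hK)) N
  have hclaim : ∀ n, n₁ + 1 ≤ n → u K n * (1 + (1 / 2 : ℝ) ^ n) ≤ ‖1 + BB K n (pt θ)‖ := by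
    have hone : ∀ n : ℕ, u K n * (1 + (1 / 2 : ℝ) ^ n) ≤ 2 * u K n := by
      intro n
      have h3 : (1 / 2 : ℝ) ^ n ≤ 1 := pow_le_one₀ (by norm_num) (by norm_num)
      nlinarith [u_pos K n]
    intro n hn
    induction n, hn using Nat.le_induction with
    | base => exact (hone _).trans (hgood n₁ hn₁N hn₁)
    | succ n hn ih =>
      by_cases hj : K n < K (n + 1)
      · exact (hone _).trans (hgood n (by omega) hj)
      · have hKe : K (n + 1) = K n := le_antisymm (not_lt.1 hj) (hm (Nat.le_succ n))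
        have hue : u K (n + 1) = u K n := by unfold u; rw [hKe]
        rw [hue]
        set w := BB K n (pt θ) with hw
        have hwn : ‖w‖ = 1 := (good_BB K n).bd _ (norm_pt θ)
        have hup := u_pos K n
        have hu1 := u_le_one K n
        have h2n : (0 : ℝ) < (1 / 2 : ℝ) ^ n := by positivity
        have h2n1 : (1 / 2 : ℝ) ^ n ≤ 1 := pow_le_one₀ (by norm_num) (by norm_num)
        have hr : rr K n = 1 - u K n ^ 2 * (1 / 2 : ℝ) ^ n / 8 := by simp [rr, hj]
        have h1r : 1 - rr K n = u K n ^ 2 * (1 / 2 : ℝ) ^ n / 8 := by rw [hr]; ring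
        have hlow : u K n ≤ ‖1 + w‖ := by nlinarith
        have hcond : 2 * (1 - rr K n) ≤ ‖1 + w‖ := by
          rw [h1r]
          have : u K n ^ 2 * (1 / 2 : ℝ) ^ n ≤ u K n * 1 := by
            rw [sq]
            have : u K n * u K n ≤ u K n * 1 := by gcongr
            calc u K n * u K n * (1 / 2 : ℝ) ^ n ≤ (u K n * 1) * 1 := by gcongr
              _ = u K n * 1 := by ring
          linarith
        have hb := bl_sub (rr_nonneg K n) (rr_lt_one K n) hwn hcond
        rw [h1r] at hb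
        have hb2 : ‖bl (rr K n) w - w‖ ≤ u K n * ((1 / 2 : ℝ) ^ n / 2) := by
          have h4 : ‖bl (rr K n) w - w‖ * u K n ≤ u K n * ((1 / 2 : ℝ) ^ n / 2) * u K n := by
            calc ‖bl (rr K n) w - w‖ * u K n ≤ ‖bl (rr K n) w - w‖ * ‖1 + w‖ := by gcongr
              _ ≤ 4 * (u K n ^ 2 * (1 / 2 : ℝ) ^ n / 8) := hb
              _ = u K n * ((1 / 2 : ℝ) ^ n / 2) * u K n := by ring
          exact le_of_mul_le_mul_right h4 hup
        have hB1 : BB K (n + 1) (pt θ) = bl (rr K n) w := rfl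
        rw [hB1]
        have h5 : ‖1 + w‖ ≤ ‖1 + bl (rr K n) w‖ + ‖bl (rr K n) w - w‖ := by
          have : 1 + w = (1 + bl (rr K n) w) - (bl (rr K n) w - w) := by ring
          calc ‖1 + w‖ = ‖(1 + bl (rr K n) w) - (bl (rr K n) w - w)‖ := by rw [← this]
            _ ≤ _ := norm_sub_le _ _
        have h6 : (1 / 2 : ℝ) ^ (n + 1) = (1 / 2 : ℝ) ^ n / 2 := by rw [pow_succ]; ring
        rw [h6]
        nlinarith
  rw [eventually_atTop]
  refine ⟨n₁ + 1, fun n hn => ?_⟩
  have h1 := hclaim n hn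
  have h2 : (0 : ℝ) < (1 / 2 : ℝ) ^ n := by positivity
  nlinarith [u_pos K n]

lemma boundary_tendsto (hK : Tendsto K atTop atTop) (hm : Monotone K) {θ : ℝ}
    (hθ : ∀ᶠ n in atTop, θ ∉ bad K n) :
    Tendsto (fun n => mob (pp K n) (BB K n (pt θ))) atTop (𝓝 1) := by
  rw [tendsto_iff_norm_sub_tendsto_zero]
  have hz : Tendsto (fun n => 4 * u K n) atTop (𝓝 0) := by
    simpa using (u_tendsto hK).const_mul 4
  apply squeeze_zero' (Filter.Eventually.of_forall fun n => norm_nonneg _) _ hz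
  filter_upwards [lower_bound hK hm hθ, hK.eventually_ge_atTop 1] with n h1 h2
  set w := BB K n (pt θ) with hw
  have hwn : ‖w‖ = 1 := (good_BB K n).bd _ (norm_pt θ)
  have hup := u_pos K n
  have hu2 : u K n ≤ 1 / 2 := by
    unfold u
    calc (1 / 2 : ℝ) ^ K n ≤ (1 / 2 : ℝ) ^ 1 := pow_le_pow_of_le_one (by norm_num) (by norm_num) h2
      _ = 1 / 2 := by norm_num
  have h1p : 1 - pp K n = u K n ^ 2 := by unfold pp; ring
  have hb := mob_sub_one (pp_nonneg K n) (pp_lt_one K n) hwn (by rw [h1p]; nlinarith)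
  rw [h1p] at hb
  have h4 : ‖mob (pp K n) w - 1‖ * u K n ≤ 4 * u K n * u K n := by
    calc ‖mob (pp K n) w - 1‖ * u K n ≤ ‖mob (pp K n) w - 1‖ * ‖1 + w‖ := by gcongr
      _ ≤ 4 * u K n ^ 2 := hb
      _ = 4 * u K n * u K n := by ring
  exact le_of_mul_le_mul_right h4 hup

/-- existence of the level function -/
lemma exists_K {ε : ℕ → ℝ} (hε : Tendsto ε atTop (𝓝 0)) :
    ∃ K : ℕ → ℕ, K 0 = 0 ∧ Monotone K ∧ Tendsto K atTop atTop ∧
      ∀ᶠ n in atTop, ε n ≤ u K n ^ 2 := by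
  classical
  set P : ℕ → ℕ → Prop := fun n k => ∀ m, n ≤ m → ε m ≤ ((1 / 2 : ℝ) ^ k) ^ 2 with hP
  have hev : ∀ k : ℕ, ∀ᶠ n in atTop, P n k := by
    intro k
    have hpos : (0 : ℝ) < ((1 / 2 : ℝ) ^ k) ^ 2 := by positivity
    have h := hε.eventually_le_const hpos
    rw [eventually_atTop] at h ⊢
    obtain ⟨N, hN⟩ := h
    exact ⟨N, fun n hn m hm => hN m (hn.trans hm)⟩
  refine ⟨fun n => Nat.findGreatest (P n) n, ?_, ?_, ?_, ?_⟩
  · simp
  · intro a b hab
    apply Nat.findGreatest_mono _ hab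
    intro k hk m hm
    exact hk m (hab.trans hm)
  · rw [Filter.tendsto_atTop]
    intro k
    filter_upwards [hev k, eventually_ge_atTop k] with n h1 h2
    exact Nat.le_findGreatest h2 h1
  · filter_upwards [hev 0] with n h1
    have : P n (Nat.findGreatest (P n) n) := Nat.findGreatest_spec (Nat.zero_le n) h1
    exact this n le_rfl

end Pool.Agent.W2helper19.DW
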