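import Pool.Agent.W2helper19.DWBasic

/-!
# Boundary measure estimate and Borel-Cantelli
-/

set_option autoImplicit false

open Complex Filter Topology MeasureTheory Set Metric

namespace Pool.Agent.W2helper19.DW

/-- point of the circle -/
noncomputable def pt (θ : ℝ) : ℂ := Complex.exp (θ * Complex.I)

lemma norm_pt (θ : ℝ) : ‖pt θ‖ = 1 := Complex.norm_exp_ofReal_mul_I θ

lemma continuous_pt : Continuous pt := by
  unfold pt
  fun_prop

/-- Poisson kernel bound. -/
lemma poisson_identity {ρ : ℝ} {w : ℂ} (hw : ‖w‖ = 1) (hd : 1 + (ρ : ℂ) * w ≠ 0) :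
    ((1 - (ρ : ℂ) * w) / (1 + ρ * w)).re = (1 - ρ ^ 2) / ‖1 + (ρ : ℂ) * w‖ ^ 2 := by
  have h1 : w.re * w.re + w.im * w.im = 1 := by
    have := Complex.normSq_eq_norm_sq w
    rw [hw, Complex.normSq_apply] at this
    simpa using this
  rw [← Complex.normSq_eq_norm_sq, Complex.div_re, ← add_div]
  congr 1
  simp only [Complex.add_re, Complex.add_im, Complex.sub_re, Complex.sub_im, Complex.mul_re,
    Complex.mul_im, Complex.one_re, Complex.one_im, Complex.ofReal_re, Complex.ofReal_im]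
  linear_combination -ρ ^ 2 * h1

lemma measure_bound {B : ℂ → ℂ} (hB : Good B) (h0 : B 0 = 0) {δ : ℝ} (hδ : 0 < δ) (hδ1 : δ ≤ 1) :
    (volume.restrict (Ioc (0 : ℝ) (2 * Real.pi))) {θ : ℝ | ‖1 + B (pt θ)‖ < δ} ≤
      ENNReal.ofReal (8 * Real.pi * δ) := by
  set ρ : ℝ := 1 - δ with hρ
  have hρ0 : 0 ≤ ρ := by linarith
  have hρ1 : |ρ| < 1 := by rw [abs_of_nonneg hρ0]; linarith
  have hden : ∀ z : ℂ, ‖z‖ ≤ 1 → 1 + (ρ : ℂ) * B z ≠ 0 := fun z hz => den_ne hρ1 (hB.le hz)
  have hG : DiffContOnCl ℂ (fun z => (1 - (ρ : ℂ) * B z) / (1 + ρ * B z)) (ball 0 |(1 : ℝ)|) := by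
    rw [abs_one]
    constructor
    · apply DifferentiableOn.div
      · exact (differentiableOn_const _).sub (hB.diff.const_mul _)
      · exact (differentiableOn_const _).add (hB.diff.const_mul _)
      · intro z hz
        exact hden z (le_of_lt (by simpa using hz))
    · rw [closure_ball _ one_ne_zero]
      apply ContinuousOn.div
      · exact continuousOn_const.sub (continuousOn_const.mul hB.cont)
      · exact continuousOn_const.add (continuousOn_const.mul hB.cont)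
      · intro z hz
        exact hden z (by simpa using hz)
  have hmean := hG.circleAverage
  have hcont : Continuous (fun θ : ℝ => (1 - (ρ : ℂ) * B (pt θ)) / (1 + ρ * B (pt θ))) := by
    have hBc : Continuous (fun θ : ℝ => B (pt θ)) := by
      apply hB.cont.comp_continuous continuous_pt
      intro θ
      simp [norm_pt]
    apply Continuous.div
    · exact continuous_const.sub (continuous_const.mul hBc)
    · exact continuous_const.add (continuous_const.mul hBc)
    intro θ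
    exact hden _ (norm_pt θ).le
  have hmean2 : ∫ θ in (0 : ℝ)..(2 * Real.pi),
      (1 - (ρ : ℂ) * B (pt θ)) / (1 + ρ * B (pt θ)) = 2 * Real.pi := by
    rw [Real.circleAverage_def] at hmean
    simp only [h0, mul_zero, sub_zero, add_zero, div_one] at hmean
    have h1 : ∀ θ : ℝ, circleMap 0 1 θ = pt θ := fun θ => by simp [circleMap, pt]
    simp only [h1] at hmean
    have hpi : (2 * Real.pi : ℝ) ≠ 0 := by positivity
    have h2 := congrArg (fun x : ℂ => (2 * Real.pi : ℝ) • x) hmean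
    simp only [smul_smul, mul_inv_cancel₀ hpi, one_smul] at h2
    rw [h2]
    simp
  have hre : ∫ θ in (0 : ℝ)..(2 * Real.pi),
      ((1 - (ρ : ℂ) * B (pt θ)) / (1 + ρ * B (pt θ))).re = 2 * Real.pi := by
    have h := Complex.reCLM.intervalIntegral_comp_comm
      (hcont.intervalIntegrable (μ := volume) 0 (2 * Real.pi))
    simp only [Complex.reCLM_apply] at h
    rw [h, hmean2]
    simp
  have hpos2 : (0 : ℝ) ≤ 2 * Real.pi := by positivity
  rw [intervalIntegral.integral_of_le hpos2] at hre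
  have hid : ∀ θ : ℝ, ((1 - (ρ : ℂ) * B (pt θ)) / (1 + ρ * B (pt θ))).re =
      (1 - ρ ^ 2) / ‖1 + (ρ : ℂ) * B (pt θ)‖ ^ 2 := fun θ =>
    poisson_identity (hB.bd _ (norm_pt θ)) (hden _ (norm_pt θ).le)
  have h1ρ : δ ≤ 1 - ρ ^ 2 := by rw [hρ]; nlinarith
  have hnn : ∀ θ : ℝ, 0 ≤ ((1 - (ρ : ℂ) * B (pt θ)) / (1 + ρ * B (pt θ))).re := by
    intro θ
    rw [hid]
    apply div_nonneg (by linarith) (by positivity)
  have hint : Integrable (fun θ : ℝ => ((1 - (ρ : ℂ) * B (pt θ)) / (1 + ρ * B (pt θ))).re)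
      (volume.restrict (Ioc (0 : ℝ) (2 * Real.pi))) := by
    have := (Complex.continuous_re.comp hcont).intervalIntegrable (μ := volume) 0 (2 * Real.pi)
    rw [intervalIntegrable_iff_integrableOn_Ioc_of_le hpos2] at this
    exact this
  have hM := mul_meas_ge_le_integral_of_nonneg (μ := volume.restrict (Ioc (0 : ℝ) (2 * Real.pi)))
    (Filter.Eventually.of_forall hnn) hint (1 / (4 * δ))
  rw [hre] at hM
  have hsub : {θ : ℝ | ‖1 + B (pt θ)‖ < δ} ⊆
      {θ : ℝ | 1 / (4 * δ) ≤ ((1 - (ρ : ℂ) * B (pt θ)) / (1 + ρ * B (pt θ))).re} := by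
    intro θ hθ
    simp only [mem_ofPred_eq] at hθ ⊢
    rw [hid]
    have hw := hB.bd _ (norm_pt θ)
    have hd : 0 < ‖1 + (ρ : ℂ) * B (pt θ)‖ := by simpa using hden _ (norm_pt θ).le
    have h2 : ‖1 + (ρ : ℂ) * B (pt θ)‖ ≤ 2 * δ := by
      have e : 1 + (ρ : ℂ) * B (pt θ) = (1 + B (pt θ)) + ((-δ : ℝ) : ℂ) * B (pt θ) := by
        rw [hρ]; push_cast; ring
      rw [e]
      calc _ ≤ ‖1 + B (pt θ)‖ + ‖((-δ : ℝ) : ℂ) * B (pt θ)‖ := norm_add_le _ _
        _ ≤ δ + δ := by
          rw [norm_mul, hw, mul_one, Complex.norm_real, Real.norm_eq_abs, abs_neg,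
            abs_of_pos hδ]
          linarith
        _ = 2 * δ := by ring
    rw [div_le_div_iff₀ (by positivity) (by positivity), one_mul]
    calc ‖1 + (ρ : ℂ) * B (pt θ)‖ ^ 2 ≤ (2 * δ) ^ 2 := by gcongr
      _ = δ * (4 * δ) := by ring
      _ ≤ (1 - ρ ^ 2) * (4 * δ) := by gcongr
  refine (measure_mono hsub).trans ?_
  have hfin : (volume.restrict (Ioc (0 : ℝ) (2 * Real.pi)))
      {θ : ℝ | 1 / (4 * δ) ≤ ((1 - (ρ : ℂ) * B (pt θ)) / (1 + ρ * B (pt θ))).re} ≠ ⊤ :=
    measure_ne_top _ _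
  rw [← ENNReal.ofReal_toReal hfin]
  apply ENNReal.ofReal_le_ofReal
  have : (1 / (4 * δ)) * (volume.restrict (Ioc (0 : ℝ) (2 * Real.pi))).real
      {θ : ℝ | 1 / (4 * δ) ≤ ((1 - (ρ : ℂ) * B (pt θ)) / (1 + ρ * B (pt θ))).re} ≤
      2 * Real.pi := hM
  rw [div_mul_eq_mul_div, div_le_iff₀ (by positivity), one_mul] at this
  rw [measureReal_def] at this
  linarith

end Pool.Agent.W2helper19.DW
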